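import Mathlib

universe u v

namespace H361P

/-- `k`-transitivity: there are `k` distinct points and `G` is transitive on injective `k`-tuples. -/
def KTransitive (G : Type u) (Ω : Type v) [Group G] [MulAction G Ω] (k : ℕ) : Prop :=
  (∃ f : Fin k → Ω, Function.Injective f) ∧
    ∀ a b : Fin k → Ω, Function.Injective a → Function.Injective b → ∃ g : G, ∀ i, g • a i = b i

/-- A highly transitive action: infinite set, `k`-transitive for every `k ≥ 1`. -/
def HighlyTransitiveAction (G : Type u) (Ω : Type v) [Group G] [MulAction G Ω] : Prop :=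
  Infinite Ω ∧ ∀ k : ℕ, 1 ≤ k → KTransitive G Ω k

/-- `G` has a faithful `k`-transitive action on some set. -/
def HasFaithfulKTransitive (G : Type u) [Group G] (k : ℕ) : Prop :=
  ∃ (Ω : Type u) (_ : MulAction G Ω), FaithfulSMul G Ω ∧ KTransitive G Ω k

/-- `G` is highly transitive: it has a faithful highly transitive action. -/
def IsHighlyTransitiveGroup (G : Type u) [Group G] : Prop :=
  ∃ (Ω : Type u) (_ : MulAction G Ω), FaithfulSMul G Ω ∧ HighlyTransitiveAction G Ω

/-- The transitivity degree of `G`: the supremum in `ℕ∞` of all `k ≥ 1` such that `G` has a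
faithful `k`-transitive action on some set. -/
noncomputable def td (G : Type u) [Group G] : ℕ∞ :=
  ⨆ (k : ℕ) (_ : 1 ≤ k ∧ HasFaithfulKTransitive G k), (k : ℕ∞)

/-- `F` is an algebraic extension of one of its finite subfields. -/
def AlgebraicOverFiniteField (F : Type u) [Field F] : Prop :=
  ∃ k : Subfield F, Finite k ∧ Algebra.IsAlgebraic k F

end H361P
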