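import Mathlib
import Pool.Agent.H361R3.PGL.Defs

universe u v

namespace H361P

open scoped LaurentSeries NNReal RatFunc
open Valuation

lemma isNT (K : Type*) [Field K] :
    (Valued.v : Valuation K⸨X⸩ (WithZero (Multiplicative ℤ))).IsNontrivial := by
  refine ⟨⟨(HahnSeries.single (1 : ℤ) (1 : K)), ?_, ?_⟩⟩
  · simp
  · rw [LaurentSeries.valuation_single_zpow]
    intro h
    have h2 : WithZero.log (WithZero.exp (-1 : ℤ)) =
      WithZero.log (1 : WithZero (Multiplicative ℤ)) := by rw [h]
    rw [WithZero.log_exp, WithZero.log_one] at h2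
    omega

noncomputable instance rk (K : Type*) [Field K] :
    (Valued.v : Valuation K⸨X⸩ (WithZero (Multiplicative ℤ))).RankOne := by
  have := isNT K
  have : MulArchimedean (MonoidWithZeroHom.ValueGroup₀
      (.ofClass (Valued.v : Valuation K⸨X⸩ (WithZero (Multiplicative ℤ))))) :=
    MulArchimedean.comap (MonoidWithZeroHom.ValueGroup₀.embedding).toMonoidHom
      (MonoidWithZeroHom.ValueGroup₀.embedding_strictMono)
  exact Classical.choice (nonempty_rankOne_iff_mulArchimedean.2 this)

@[reducible] noncomputable def nf (K : Type*) [Field K] : NontriviallyNormedField K⸨X⸩ :=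
  Valued.toNontriviallyNormedField (L := K⸨X⸩) (Γ₀ := (WithZero (Multiplicative ℤ)))

lemma norm_X (K : Type*) [Field K] :
    (nf K).toNormedField.toNorm.norm (HahnSeries.single (1 : ℤ) (1 : K) : K⸨X⸩) < 1 := by
  rw [Valued.toNormedField.norm_lt_one_iff, LaurentSeries.valuation_single_zpow]
  rw [← WithZero.exp_zero, WithZero.exp_lt_exp]
  omega

theorem abs_laurent (K : Type*) [Field K] : ∃ v : AbsoluteValue (AlgebraicClosure K⸨X⸩) ℝ,
    v (algebraMap K⸨X⸩ _ (HahnSeries.single (1 : ℤ) (1 : K))) < 1 := by
  let _ := nf K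
  have : CompleteSpace K⸨X⸩ := inferInstance
  have : IsUltrametricDist K⸨X⸩ := inferInstance
  let N := spectralMulAlgNorm K⸨X⸩ (AlgebraicClosure K⸨X⸩)
  refine ⟨{ toFun := fun x => N x
            map_mul' := fun x y => map_mul N x y
            nonneg' := fun x => apply_nonneg N x
            eq_zero' := fun x => map_eq_zero_iff_eq_zero N
            add_le' := fun x y => map_add_le_add N x y }, ?_⟩
  show N _ < 1
  show spectralNorm _ _ _ < 1
  rw [spectralNorm_extends]
  exact norm_X K

lemma abs_of_embed {A F C : Type*} [Field A] [Field F] [Field C] [IsAlgClosed C] [Algebra A F]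
    [Algebra.IsAlgebraic A F] (ψ : A →+* C) (v : AbsoluteValue C ℝ) (t : A) (hv : v (ψ t) < 1) :
    ∃ v' : AbsoluteValue F ℝ, v' (algebraMap A F t) < 1 := by
  let _ : Algebra A C := ψ.toAlgebra
  let φ : F →ₐ[A] C := IsAlgClosed.lift
  refine ⟨v.comp (f := φ.toRingHom) φ.toRingHom.injective, ?_⟩
  show v (φ (algebraMap A F t)) < 1
  rw [φ.commutes]
  exact hv

lemma abs_of_simple {K F : Type*} [Field K] [Field F] [Algebra K F] (t : F)
    (htr : Transcendental K t) [Algebra.IsAlgebraic (IntermediateField.adjoin K {t}) F] :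
    ∃ v : AbsoluteValue F ℝ, v t < 1 := by
  obtain ⟨v, hv⟩ := abs_laurent K
  let e := RatFunc.algEquivOfTranscendental t htr
  let ψ : IntermediateField.adjoin K {t} →+* AlgebraicClosure K⸨X⸩ :=
    (algebraMap K⸨X⸩ (AlgebraicClosure K⸨X⸩)).comp
      ((algebraMap (RatFunc K) K⸨X⸩).comp e.symm.toRingEquiv.toRingHom)
  have h2 : e.symm ⟨t, IntermediateField.mem_adjoin_simple_self K t⟩ = RatFunc.X := by
    rw [AlgEquiv.symm_apply_eq]
    apply Subtype.ext
    rw [RatFunc.algEquivOfTranscendental_X]
  have h3 : ψ ⟨t, IntermediateField.mem_adjoin_simple_self K t⟩ =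
      algebraMap K⸨X⸩ _ (HahnSeries.single (1 : ℤ) (1 : K)) := by
    show algebraMap K⸨X⸩ _ (algebraMap (RatFunc K) K⸨X⸩ (e.symm _)) = _
    rw [h2]
    congr 1
    exact RatFunc.coe_X
  obtain ⟨v', hv'⟩ := abs_of_embed (F := F) ψ v ⟨t, IntermediateField.mem_adjoin_simple_self K t⟩
    (by rw [h3]; exact hv)
  exact ⟨v', hv'⟩

/-- A field which is not algebraic over a subfield has a nontrivial absolute value. -/
theorem abs_of_transcendental {k : Type v} {F : Type u} [Field k] [Field F] [Algebra k F]
    (hnot : ¬ Algebra.IsAlgebraic k F) :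
    ∃ v : AbsoluteValue F ℝ, ∃ x : F, x ≠ 0 ∧ v x < 1 := by
  obtain ⟨ι, x, hx⟩ := exists_isTranscendenceBasis' k F
  have hne : Nonempty ι := by
    by_contra hemp
    rw [not_nonempty_iff, hx.isEmpty_iff_isAlgebraic] at hemp
    exact hnot hemp
  obtain ⟨i0⟩ := hne
  let K := IntermediateField.adjoin k (x '' {i | i ≠ i0})
  set t := x i0 with ht
  have htr : Transcendental K t := by
    rw [IntermediateField.transcendental_adjoin_iff]
    exact hx.1.transcendental_adjoin (by simp)
  have halg : Algebra.IsAlgebraic (IntermediateField.adjoin K {t}) F := by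
    have h1 := hx.isAlgebraic_field
    let L := (IntermediateField.adjoin K {t}).restrictScalars k
    have hle : IntermediateField.adjoin k (Set.range x) ≤ L := by
      rw [IntermediateField.adjoin_le_iff]
      rintro _ ⟨i, rfl⟩
      show x i ∈ IntermediateField.adjoin K {t}
      by_cases hi : i = i0
      · rw [hi]; exact IntermediateField.mem_adjoin_simple_self K t
      · have h2 : x i ∈ K := IntermediateField.subset_adjoin k _ ⟨i, hi, rfl⟩
        exact (IntermediateField.adjoin K {t}).algebraMap_mem ⟨x i, h2⟩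
    let inc : IntermediateField.adjoin k (Set.range x) →+* IntermediateField.adjoin K {t} :=
      (IntermediateField.inclusion hle).toRingHom
    let _ : Algebra (IntermediateField.adjoin k (Set.range x)) (IntermediateField.adjoin K {t}) :=
      inc.toAlgebra
    have : IsScalarTower (IntermediateField.adjoin k (Set.range x))
        (IntermediateField.adjoin K {t}) F :=
      IsScalarTower.of_algebraMap_eq (fun y => rfl)
    exact Algebra.IsAlgebraic.extendScalars (R := IntermediateField.adjoin k (Set.range x))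
      inc.injective
  obtain ⟨v, hv⟩ := abs_of_simple (K := K) t htr
  refine ⟨v, t, ?_, hv⟩
  intro h0
  rw [h0] at htr
  exact htr isAlgebraic_zero

theorem exists_abs {F : Type u} [Field F] (h : ¬ AlgebraicOverFiniteField F) :
    ∃ v : AbsoluteValue F ℝ, ∃ x : F, x ≠ 0 ∧ v x < 1 := by
  obtain ⟨p, hp⟩ := CharP.exists F
  rcases CharP.char_is_prime_or_zero F p with hpp | h0
  · haveI : Fact p.Prime := ⟨hpp⟩
    let _ : Algebra (ZMod p) F := ZMod.algebra F p
    by_cases halg : Algebra.IsAlgebraic (ZMod p) F
    · exfalso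
      apply h
      refine ⟨(algebraMap (ZMod p) F).fieldRange, ?_, ?_⟩
      · exact Set.finite_range _
      · refine ⟨fun y => ?_⟩
        obtain ⟨q, hq0, hq⟩ := halg.isAlgebraic y
        refine ⟨q.map ((algebraMap (ZMod p) F).rangeRestrictField), ?_, ?_⟩
        · rwa [Ne, Polynomial.map_eq_zero]
        · rw [Polynomial.aeval_def, Polynomial.eval₂_map]
          rw [Polynomial.aeval_def] at hq
          exact hq
    · exact abs_of_transcendental halg
  · subst h0
    haveI : CharZero F := CharP.charP_to_charZero F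
    by_cases halg : Algebra.IsAlgebraic ℚ F
    · let φ : F →ₐ[ℚ] ℂ := IsAlgClosed.lift
      refine ⟨(NormedField.toAbsoluteValue ℂ).comp (f := φ.toRingHom) φ.toRingHom.injective,
        (2 : F)⁻¹, by simp, ?_⟩
      show ‖φ (2 : F)⁻¹‖ < 1
      rw [map_inv₀, map_ofNat]
      norm_num
    · exact abs_of_transcendental halg

end H361P
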