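import Mathlib

/-!
An abstract ping-pong construction of highly transitive coset actions.
`G` acts on a metric space `X`; the hypotheses are collected in `H361P.PP`.
-/

namespace H361P

open Set

/-- Dynamical hypotheses on an action of `G` on a metric space `X`. -/
structure PP (G X : Type*) [Group G] [MetricSpace X] [MulAction G X] : Prop where
  ne : Nonempty X
  lip : ∀ g : G, ∃ C : ℝ, 0 < C ∧ ∀ x y : X, dist (g • x) (g • y) ≤ C * dist x y
  bdd : ∃ D : ℝ, ∀ x y : X, dist x y ≤ D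
  perf : ∀ V : Set X, IsOpen V → V.Nonempty → ∃ x ∈ V, ∃ y ∈ V, x ≠ y
  free : ∀ g : G, g ≠ 1 → ∀ V : Set X, IsOpen V → V.Nonempty → ∃ x ∈ V, g • x ≠ x
  contr : ∀ U : Bool → Set X, (∀ b, IsOpen (U b)) → (∀ b, (U b).Nonempty) →
    Disjoint (U true) (U false) → ∀ ε : ℝ, 0 < ε → ∃ γ : Bool → G, γ false = (γ true)⁻¹ ∧
      (∀ b x, x ∉ U (!b) → γ b • x ∈ U b) ∧
      (∀ b x y, x ∉ U (!b) → y ∉ U (!b) → dist (γ b • x) (γ b • y) ≤ ε * dist x y)
  equi : ∀ V : Set X, IsOpen V → V.Nonempty → ∃ V' ⊆ V, IsOpen V' ∧ V'.Nonempty ∧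
    ∃ C : ℝ, 0 < C ∧ ∀ g : G, (∀ x ∈ V, g • x ∉ V) →
      ∀ x ∈ V', ∀ y ∈ V', dist (g • x) (g • y) ≤ C * dist x y

variable {G X : Type*} [Group G] [MetricSpace X] [MulAction G X]

lemma PP.cont (hp : PP G X) (g : G) : Continuous (fun x : X => g • x) := by
  obtain ⟨C, hC, h⟩ := hp.lip g
  have : LipschitzWith ⟨C, hC.le⟩ (fun x : X => g • x) := by
    apply LipschitzWith.of_dist_le_mul
    intro x y
    exact h x y
  exact this.continuous

lemma PP.unif (hp : PP G X) (S : Finset G) :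
    ∃ L : ℝ, 1 ≤ L ∧ ∀ s ∈ S, ∀ x y : X, dist (s • x) (s • y) ≤ L * dist x y := by
  classical
  induction S using Finset.induction_on with
  | empty => exact ⟨1, le_refl _, by simp⟩
  | insert a S _ ih =>
    obtain ⟨L, hL, h⟩ := ih
    obtain ⟨C, hC, h'⟩ := hp.lip a
    refine ⟨max L C, le_max_of_le_left hL, ?_⟩
    intro s hs x y
    rcases Finset.mem_insert.1 hs with rfl | hs
    · exact (h' x y).trans (mul_le_mul_of_nonneg_right (le_max_right _ _) dist_nonneg)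
    · exact (h s hs x y).trans (mul_le_mul_of_nonneg_right (le_max_left _ _) dist_nonneg)

/-- Shrinking open sets finitely many times. -/
lemma shrink {ι : Type*} (S : Finset ι) (P : ι → Set X → Prop)
    (hanti : ∀ i V V', V' ⊆ V → P i V → P i V')
    (hex : ∀ i ∈ S, ∀ V : Set X, IsOpen V → V.Nonempty → ∃ V' ⊆ V, IsOpen V' ∧ V'.Nonempty ∧ P i V')
    (V : Set X) (hV : IsOpen V) (hVn : V.Nonempty) :
    ∃ V' ⊆ V, IsOpen V' ∧ V'.Nonempty ∧ ∀ i ∈ S, P i V' := by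
  classical
  induction S using Finset.induction_on with
  | empty => exact ⟨V, subset_rfl, hV, hVn, by simp⟩
  | insert a S _ ih =>
    obtain ⟨V1, h1, h2, h3, h4⟩ := ih (fun i hi => hex i (Finset.mem_insert_of_mem hi))
    obtain ⟨V2, k1, k2, k3, k4⟩ := hex a (Finset.mem_insert_self _ _) V1 h2 h3
    refine ⟨V2, k1.trans h1, k2, k3, ?_⟩
    intro i hi
    rcases Finset.mem_insert.1 hi with rfl | hi
    · exact k4
    · exact hanti _ _ _ k1 (h4 i hi)

/-- The wandering property of a subgroup. -/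
def Wand (X : Type*) [MetricSpace X] [MulAction G X] (H : Subgroup G) : Prop :=
  ∀ (S : Finset G) (V : Set X), IsOpen V → V.Nonempty → ∃ V' ⊆ V, IsOpen V' ∧ V'.Nonempty ∧
    ∀ s ∈ S, ∀ s' ∈ S, ∀ h ∈ H, ∀ x ∈ V', ∀ y ∈ V', (h * s) • x = s' • y → h * s = s'

lemma wand_bot (hp : PP G X) : Wand X (⊥ : Subgroup G) := by
  classical
  intro S V hV hVn
  have := shrink (S ×ˢ S) (fun p V => ∀ x ∈ V, ∀ y ∈ V, p.1 • x = p.2 • y → p.1 = p.2)
    (by
      intro i V V' h1 h2 x hx y hy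
      exact h2 x (h1 hx) y (h1 hy))
    (by
      rintro ⟨s, s'⟩ _ V hV hVn
      by_cases hss : s = s'
      · exact ⟨V, subset_rfl, hV, hVn, by intro x _ y _ _; exact hss⟩
      · have hne : s'⁻¹ * s ≠ 1 := by
          intro h; apply hss; rw [inv_mul_eq_one] at h; exact h.symm
        obtain ⟨x0, hx0, hx0'⟩ := hp.free _ hne V hV hVn
        obtain ⟨N1, N2, hN1, hN2, hx1, hx2, hd⟩ := t2_separation hx0'
        refine ⟨V ∩ N2 ∩ (fun x => (s'⁻¹ * s) • x) ⁻¹' N1, ?_, ?_, ?_, ?_⟩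
        · intro x hx; exact hx.1.1
        · exact (hV.inter hN2).inter (hN1.preimage (hp.cont _))
        · exact ⟨x0, ⟨hx0, hx2⟩, hx1⟩
        · intro x hx y hy hxy
          exfalso
          have h1 : (s'⁻¹ * s) • x ∈ N1 := hx.2
          have h2 : y ∈ N2 := hy.1.2
          have h3 : (s'⁻¹ * s) • x = y := by
            rw [mul_smul]; simp only at hxy; rw [hxy, inv_smul_smul]
          rw [h3] at h1
          exact Set.disjoint_left.1 hd h1 h2) V hV hVn
  obtain ⟨V', h1, h2, h3, h4⟩ := this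
  refine ⟨V', h1, h2, h3, ?_⟩
  intro s hs s' hs' h hh x hx y hy hxy
  rw [Subgroup.mem_bot] at hh
  subst hh
  rw [one_mul] at hxy ⊢
  exact h4 (s, s') (Finset.mem_product.2 ⟨hs, hs'⟩) x hx y hy hxy

/-- Three disjoint balls in an open set. -/
lemma three_balls (hp : PP G X) (V : Set X) (hV : IsOpen V) (hVn : V.Nonempty) :
    ∃ p q o : X, ∃ ρ : ℝ, 0 < ρ ∧ Metric.closedBall p ρ ⊆ V ∧ Metric.closedBall q ρ ⊆ V ∧
      Metric.closedBall o ρ ⊆ V ∧ Disjoint (Metric.closedBall p ρ) (Metric.closedBall q ρ) ∧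
      Disjoint (Metric.closedBall p ρ) (Metric.closedBall o ρ) ∧
      Disjoint (Metric.closedBall q ρ) (Metric.closedBall o ρ) := by
  obtain ⟨p, hp1, r, hr, hpr⟩ := hp.perf V hV hVn
  obtain ⟨N1, N2, hN1, hN2, hx1, hx2, hd⟩ := t2_separation hpr
  obtain ⟨q, hq, o, ho, hqo⟩ := hp.perf (V ∩ N2) (hV.inter hN2) ⟨r, hr, hx2⟩
  obtain ⟨N3, N4, hN3, hN4, hx3, hx4, hd'⟩ := t2_separation hqo
  obtain ⟨r1, hr1, h1⟩ := Metric.isOpen_iff.1 (hV.inter hN1) p ⟨hp1, hx1⟩
  obtain ⟨r2, hr2, h2⟩ := Metric.isOpen_iff.1 ((hV.inter hN2).inter hN3) q ⟨hq, hx3⟩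
  obtain ⟨r3, hr3, h3⟩ := Metric.isOpen_iff.1 ((hV.inter hN2).inter hN4) o ⟨ho, hx4⟩
  set ρ := min r1 (min r2 r3) / 2 with hρ
  have hρ0 : 0 < ρ := by positivity
  have hρ1 : ρ < r1 := by
    have : min r1 (min r2 r3) ≤ r1 := min_le_left _ _
    linarith
  have hρ2 : ρ < r2 := by
    have : min r1 (min r2 r3) ≤ r2 := (min_le_right _ _).trans (min_le_left _ _)
    linarith
  have hρ3 : ρ < r3 := by
    have : min r1 (min r2 r3) ≤ r3 := (min_le_right _ _).trans (min_le_right _ _)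
    linarith
  have k1 := (Metric.closedBall_subset_ball hρ1 (x := p)).trans h1
  have k2 := (Metric.closedBall_subset_ball hρ2 (x := q)).trans h2
  have k3 := (Metric.closedBall_subset_ball hρ3 (x := o)).trans h3
  refine ⟨p, q, o, ρ, hρ0, fun x hx => (k1 hx).1, fun x hx => (k2 hx).1.1,
    fun x hx => (k3 hx).1.1, ?_, ?_, ?_⟩
  · rw [Set.disjoint_left]
    intro x hx hx'
    exact Set.disjoint_left.1 hd (k1 hx).2 (k2 hx').1.2
  · rw [Set.disjoint_left]
    intro x hx hx'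
    exact Set.disjoint_left.1 hd (k1 hx).2 (k3 hx').1.2
  · rw [Set.disjoint_left]
    intro x hx hx'
    exact Set.disjoint_left.1 hd' (k2 hx).2 (k3 hx').2

end H361P
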