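import Pool.Agent.H361R3.PGL.Abstract

namespace H361P

open Set

variable {G X : Type*} [Group G] [MetricSpace X] [MulAction G X]

/-- Ping-pong data. -/
structure Core (H : Subgroup G) {ι : Type*} (t : ι → Bool → G) (T : ι → Bool → Set X)
    (O : Set X) : Prop where
  inv : ∀ i b, t i (!b) = (t i b)⁻¹
  pp : ∀ i b x, x ∉ T i (!b) → t i b • x ∈ T i b
  disj : ∀ h ∈ H, ∀ i b i' b' x, x ∈ T i b → h • x ∈ T i' b' → h = 1 ∧ i = i' ∧ b = b'
  opn : ∀ i b, IsOpen (T i b)
  reg : ∀ i b, ∀ N : Set X, IsOpen N → ∀ x ∈ N, x ∉ T i b →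
    ∃ N' ⊆ N, IsOpen N' ∧ N'.Nonempty ∧ ∀ y ∈ N', y ∉ T i b
  oO : IsOpen O
  neO : O.Nonempty
  dO : ∀ h ∈ H, ∀ i b x, x ∈ T i b → h • x ∉ O
  con : ∀ h ∈ H, ∀ i b x y, x ∉ T i (!b) → y ∉ T i (!b) →
    dist ((h * t i b) • x) ((h * t i b) • y) ≤ (1 / 2) * dist x y

/-- The new subgroup. -/
def Gam (H : Subgroup G) {ι : Type*} (t : ι → Bool → G) : Subgroup G :=
  Subgroup.closure ((H : Set G) ∪ {g | ∃ i b, g = t i b})

lemma H_le_Gam (H : Subgroup G) {ι : Type*} (t : ι → Bool → G) : H ≤ Gam H t :=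
  fun _ hx => Subgroup.subset_closure (Or.inl hx)

lemma t_mem_Gam (H : Subgroup G) {ι : Type*} (t : ι → Bool → G) (i : ι) (b : Bool) :
    t i b ∈ Gam H t :=
  Subgroup.subset_closure (Or.inr ⟨i, b, rfl⟩)

/-- Reduced words with first letter `t i b`. -/
inductive Red (H : Subgroup G) {ι : Type*} (t : ι → Bool → G) : ι → Bool → G → Prop
  | base (i : ι) (b : Bool) (h : G) (hh : h ∈ H) : Red H t i b (t i b * h)
  | step (i : ι) (b : Bool) (i' : ι) (b' : Bool) (h ρ : G) (hh : h ∈ H) (hr : Red H t i' b' ρ)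
      (hne : ¬ (h = 1 ∧ i' = i ∧ b' = !b)) : Red H t i b (t i b * (h * ρ))

variable {H : Subgroup G} {ι : Type*} {t : ι → Bool → G} {T : ι → Bool → Set X} {O : Set X}

lemma Core.cover (hc : Core H t T O) : ∀ γ ∈ Gam H t,
    γ ∈ H ∨ ∃ h ∈ H, ∃ i b ρ, Red H t i b ρ ∧ γ = h * ρ := by
  have hmulH : ∀ x ∈ H, ∀ y : G, (y ∈ H ∨ ∃ h ∈ H, ∃ i b ρ, Red H t i b ρ ∧ y = h * ρ) →
      (x * y ∈ H ∨ ∃ h ∈ H, ∃ i b ρ, Red H t i b ρ ∧ x * y = h * ρ) := by
    intro x hx y hy
    rcases hy with hy | ⟨h, hh, i, b, ρ, hr, rfl⟩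
    · exact Or.inl (H.mul_mem hx hy)
    · exact Or.inr ⟨x * h, H.mul_mem hx hh, i, b, ρ, hr, by rw [mul_assoc]⟩
  have hmulT : ∀ i b, ∀ y : G, (y ∈ H ∨ ∃ h ∈ H, ∃ i b ρ, Red H t i b ρ ∧ y = h * ρ) →
      (t i b * y ∈ H ∨ ∃ h ∈ H, ∃ j c ρ, Red H t j c ρ ∧ t i b * y = h * ρ) := by
    intro i b y hy
    rcases hy with hy | ⟨h, hh, i', b', ρ, hr, rfl⟩
    · exact Or.inr ⟨1, H.one_mem, i, b, _, Red.base i b y hy, by rw [one_mul]⟩
    · by_cases hne : h = 1 ∧ i' = i ∧ b' = !b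
      · obtain ⟨rfl, rfl, rfl⟩ := hne
        cases hr with
        | base _ _ h' hh' =>
          left
          rw [one_mul, hc.inv, mul_inv_cancel_left]
          exact hh'
        | step _ _ i'' b'' h' ρ' hh' hr' hne' =>
          right
          refine ⟨h', hh', i'', b'', ρ', hr', ?_⟩
          rw [one_mul, hc.inv, mul_inv_cancel_left]
      · exact Or.inr ⟨1, H.one_mem, i, b, _, Red.step i b i' b' h ρ hh hr hne, by rw [one_mul]⟩
  intro γ hγ
  unfold Gam at hγ
  induction hγ using Subgroup.closure_induction_left with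
  | one => exact Or.inl H.one_mem
  | mul_left x hx y _ ih =>
    rcases hx with hx | ⟨i, b, rfl⟩
    · exact hmulH x hx y ih
    · exact hmulT i b y ih
  | inv_mul_cancel x hx y _ ih =>
    rcases hx with hx | ⟨i, b, rfl⟩
    · exact hmulH x⁻¹ (H.inv_mem hx) y ih
    · rw [← hc.inv]; exact hmulT i (!b) y ih

/-- Points not in a tight piece. -/
def Y' (H : Subgroup G) (t : ι → Bool → G) (T : ι → Bool → Set X) : Set X :=
  {x | ∀ h ∈ H, ∀ i b, t i b • h • x ∈ T i b}

/-- The (modified) fundamental region. -/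
def Ys (H : Subgroup G) (t : ι → Bool → G) (T : ι → Bool → Set X) : Set X :=
  {x | (∀ h ∈ H, ∀ i b, t i b • h • x ∈ T i b) ∧ ∀ h ∈ H, ∀ i b, h • x ∈ T i b → h = 1 ∧ b = true}

lemma Core.ping (hc : Core H t T O) {i : ι} {b : Bool} {ρ : G} (hr : Red H t i b ρ)
    {x : X} (hx : x ∈ Y' H t T) : ρ • x ∈ T i b := by
  induction hr with
  | base i b h hh => rw [mul_smul]; exact hx h hh i b
  | step i b i' b' h ρ hh _ hne ih =>
    rw [mul_smul, mul_smul]
    apply hc.pp
    intro hmem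
    obtain ⟨h1, h2, h3⟩ := hc.disj h hh i' b' i (!b) (ρ • x) ih hmem
    exact hne ⟨h1, h2, h3⟩

lemma Core.fact1 (hc : Core H t T O) {x y : X} (hx : x ∈ Ys H t T) (hy : y ∈ Ys H t T)
    {γ : G} (hγ : γ ∈ Gam H t) (hxy : γ • x = y) : γ ∈ H := by
  by_contra hnot
  rcases hc.cover γ hγ with h | ⟨h, hh, i, b, ρ, hr, rfl⟩
  · exact hnot h
  have h1 : ρ • x ∈ T i b := hc.ping hr hx.1
  have h2 : h⁻¹ • y = ρ • x := by rw [← hxy, mul_smul, inv_smul_smul]
  rw [← h2] at h1
  obtain ⟨h3, h4⟩ := hy.2 h⁻¹ (H.inv_mem hh) i b h1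
  rw [inv_eq_one] at h3
  subst h3
  subst h4
  rw [one_mul] at hxy
  have hy1 : t i false • y ∈ T i false := by
    have := hy.1 1 H.one_mem i false
    rwa [one_smul] at this
  have hinv : t i false = (t i true)⁻¹ := by simpa using hc.inv i true
  cases hr with
  | base _ _ h' hh' =>
    rw [mul_smul] at hxy
    rw [← hxy, hinv, inv_smul_smul] at hy1
    have := (hx.2 h' hh' i false hy1).2
    exact absurd this (by simp)
  | step _ _ i' b' h' ρ' hh' hr' hne' =>
    rw [mul_smul, mul_smul] at hxy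
    rw [← hxy, hinv, inv_smul_smul] at hy1
    have h5 : ρ' • x ∈ T i' b' := hc.ping hr' hx.1
    obtain ⟨k1, k2, k3⟩ := hc.disj h' hh' i' b' i false _ h5 hy1
    exact hne' ⟨k1, k2, by simpa using k3⟩

lemma Core.O_sub (hc : Core H t T O) {o : X} (ho : o ∈ O) : o ∈ Y' H t T := by
  intro h hh i b
  apply hc.pp
  intro hmem
  have := hc.dO h⁻¹ (H.inv_mem hh) i (!b) _ hmem
  rw [inv_smul_smul] at this
  exact this ho

lemma Core.excl (hc : Core H t T O) {γ : G} (hγ : γ ∈ Gam H t) (hn : γ ∉ H) {o : X}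
    (ho : o ∈ O) : ∃ h ∈ H, ∃ i b, ∃ x ∈ T i b, γ • o = h • x := by
  rcases hc.cover γ hγ with h | ⟨h, hh, i, b, ρ, hr, rfl⟩
  · exact absurd h hn
  · exact ⟨h, hh, i, b, ρ • o, hc.ping hr (hc.O_sub ho), by rw [mul_smul]⟩

/-- Either done, or there is a piece of depth `m+1` meeting `V`. -/
lemma Core.descend (hp : PP G X) (hc : Core H t T O) (V : Set X) (hV : IsOpen V)
    (hVn : V.Nonempty) (m : ℕ) :
    (∃ V' ⊆ V, IsOpen V' ∧ V'.Nonempty ∧ ∃ γ ∈ Gam H t, ∀ x ∈ V', γ • x ∈ Y' H t T) ∨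
    (∃ w ∈ Gam H t, ∃ i b,
      (∀ x y, x ∉ T i (!b) → y ∉ T i (!b) → dist (w • x) (w • y) ≤ (1 / 2) ^ m * dist x y) ∧
      ∃ N ⊆ V, IsOpen N ∧ N.Nonempty ∧ ∀ x ∈ N, w⁻¹ • x ∉ T i (!b)) := by
  induction m with
  | zero =>
    by_cases hdone : ∀ x ∈ V, x ∈ Y' H t T
    · left
      exact ⟨V, subset_rfl, hV, hVn, 1, (Gam H t).one_mem, by simpa using hdone⟩
    · right
      push Not at hdone
      obtain ⟨x, hxV, hx⟩ := hdone
      simp only [Y', Set.mem_ofPred_eq, not_forall] at hx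
      obtain ⟨h, hh, i', b', hx⟩ := hx
      set w := h⁻¹ * t i' (!b') with hw
      have hwx : w⁻¹ • x = t i' b' • h • x := by
        rw [hw, mul_inv_rev, inv_inv, hc.inv, inv_inv, mul_smul]
      obtain ⟨N', hN1, hN2, hN3, hN4⟩ := hc.reg i' b' ((fun y => w • y) ⁻¹' V)
        (hV.preimage (hp.cont _)) (w⁻¹ • x)
        (by simp only [Set.mem_preimage, smul_inv_smul]; exact hxV) (by rw [hwx]; exact hx)
      refine ⟨w, (Gam H t).mul_mem ((Gam H t).inv_mem (H_le_Gam H t hh)) (t_mem_Gam H t _ _),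
        i', !b', ?_, (fun y => w⁻¹ • y) ⁻¹' N', ?_, hN2.preimage (hp.cont _), ?_, ?_⟩
      · intro a c ha hc'
        have := hc.con h⁻¹ (H.inv_mem hh) i' (!b') a c ha hc'
        rw [← hw] at this
        have hd : 0 ≤ dist a c := dist_nonneg
        simp only [pow_zero]
        linarith
      · intro y hy
        have := hN1 hy
        simpa using this
      · obtain ⟨y, hy⟩ := hN3
        exact ⟨w • y, by simpa using hy⟩
      · intro y hy
        rw [Bool.not_not]
        exact hN4 _ hy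
  | succ m ih =>
    rcases ih with h | ⟨w, hw, i, b, hcon, N, hNV, hNo, hNn, hN⟩
    · exact Or.inl h
    by_cases hdone : ∀ x ∈ N, w⁻¹ • x ∈ Y' H t T
    · left
      exact ⟨N, hNV, hNo, hNn, w⁻¹, (Gam H t).inv_mem hw, hdone⟩
    · right
      push Not at hdone
      obtain ⟨x, hxN, hx⟩ := hdone
      simp only [Y', Set.mem_ofPred_eq, not_forall] at hx
      obtain ⟨h, hh, i', b', hx⟩ := hx
      -- the new letter
      have hin : h • w⁻¹ • x ∈ T i' (!b') := by
        have h1 := hc.pp i' (!b') (t i' b' • h • w⁻¹ • x) (by rwa [Bool.not_not])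
        rwa [hc.inv, inv_smul_smul] at h1
      have hne : ¬ (h = 1 ∧ i' = i ∧ (!b') = !b) := by
        rintro ⟨rfl, rfl, h3⟩
        rw [one_smul, h3] at hin
        exact hN x hxN hin
      set u := h⁻¹ * t i' (!b') with hu
      have hux : (w * u)⁻¹ • x = t i' b' • h • w⁻¹ • x := by
        rw [hu, mul_inv_rev, mul_inv_rev, inv_inv, hc.inv, inv_inv, mul_smul, mul_smul]
      obtain ⟨N', hN1, hN2, hN3, hN4⟩ := hc.reg i' b' ((fun y => (w * u) • y) ⁻¹' N)
        (hNo.preimage (hp.cont _)) ((w * u)⁻¹ • x)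
        (by simp only [Set.mem_preimage, smul_inv_smul]; exact hxN) (by rw [hux]; exact hx)
      refine ⟨w * u, (Gam H t).mul_mem hw ((Gam H t).mul_mem ((Gam H t).inv_mem
        (H_le_Gam H t hh)) (t_mem_Gam H t _ _)),
        i', !b', ?_, (fun y => (w * u)⁻¹ • y) ⁻¹' N', ?_, hN2.preimage (hp.cont _), ?_, ?_⟩
      · intro a c ha hc'
        have key : ∀ z, z ∉ T i' (!(!b')) → u • z ∉ T i (!b) := by
          intro z hz hmem
          have h1 := hc.pp i' (!b') z hz
          rw [hu, mul_smul] at hmem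
          obtain ⟨k1, k2, k3⟩ := hc.disj h⁻¹ (H.inv_mem hh) i' (!b') i (!b) _ h1 hmem
          exact hne ⟨inv_eq_one.1 k1, k2, k3⟩
        have h1 := hcon (u • a) (u • c) (key a ha) (key c hc')
        have h2 := hc.con h⁻¹ (H.inv_mem hh) i' (!b') a c ha hc'
        rw [← hu] at h2
        rw [show (w * u) • a = w • u • a from mul_smul _ _ _,
          show (w * u) • c = w • u • c from mul_smul _ _ _]
        calc _ ≤ (1 / 2) ^ m * dist (u • a) (u • c) := h1
          _ ≤ (1 / 2) ^ m * ((1 / 2) * dist a c) :=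
            mul_le_mul_of_nonneg_left h2 (by positivity)
          _ = (1 / 2) ^ (m + 1) * dist a c := by ring
      · intro y hy
        have := hN1 hy
        have h2 : (w * u) • (w * u)⁻¹ • y ∈ N := this
        rw [smul_inv_smul] at h2
        exact hNV h2
      · obtain ⟨y, hy⟩ := hN3
        exact ⟨(w * u) • y, by
          show (w * u)⁻¹ • (w * u) • y ∈ N'
          rw [inv_smul_smul]; exact hy⟩
      · intro y hy
        rw [Bool.not_not]
        exact hN4 _ hy

lemma Core.fact2' (hp : PP G X) (hc : Core H t T O) (V : Set X) (hV : IsOpen V)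
    (hVn : V.Nonempty) :
    ∃ V' ⊆ V, IsOpen V' ∧ V'.Nonempty ∧ ∃ γ ∈ Gam H t, ∀ x ∈ V', γ • x ∈ Y' H t T := by
  obtain ⟨v, hv⟩ := hVn
  obtain ⟨r, hr, hball⟩ := Metric.isOpen_iff.1 hV v hv
  obtain ⟨D, hD⟩ := hp.bdd
  have hlim : Filter.Tendsto (fun m : ℕ => (1 / 2 : ℝ) ^ m * D) Filter.atTop (nhds (0 * D)) :=
    (tendsto_pow_atTop_nhds_zero_of_lt_one (by norm_num) (by norm_num)).mul_const D
  rw [zero_mul] at hlim
  obtain ⟨m, hm⟩ := (hlim.eventually_lt_const (show (0 : ℝ) < r / 2 by linarith)).exists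
  rcases hc.descend hp (Metric.ball v (r / 2)) Metric.isOpen_ball
    ⟨v, Metric.mem_ball_self (by linarith)⟩ m with h | ⟨w, hw, i, b, hcon, N, hNV, hNo, hNn, hN⟩
  · obtain ⟨V', h1, h2, h3, h4⟩ := h
    exact ⟨V', (h1.trans (Metric.ball_subset_ball (by linarith))).trans hball, h2, h3, h4⟩
  · obtain ⟨x, hx⟩ := hNn
    refine ⟨(fun y => w⁻¹ • y) ⁻¹' O, ?_, hc.oO.preimage (hp.cont _), ?_, w⁻¹,
      (Gam H t).inv_mem hw, ?_⟩
    · intro y hy
      apply hball
      have hyO : w⁻¹ • y ∈ O := hy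
      have hyT : w⁻¹ • y ∉ T i (!b) := by
        intro hmem
        have := hc.dO 1 H.one_mem i (!b) _ hmem
        rw [one_smul] at this
        exact this hyO
      have h1 := hcon _ _ hyT (hN x hx)
      rw [smul_inv_smul, smul_inv_smul] at h1
      have h2 : dist x v < r / 2 := by simpa using hNV hx
      have h3 : (1 / 2 : ℝ) ^ m * dist (w⁻¹ • y) (w⁻¹ • x) ≤ (1 / 2 : ℝ) ^ m * D :=
        mul_le_mul_of_nonneg_left (hD _ _) (by positivity)
      rw [Metric.mem_ball]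
      calc dist y v ≤ dist y x + dist x v := dist_triangle _ _ _
        _ < r := by linarith
    · obtain ⟨o, ho⟩ := hc.neO
      exact ⟨w • o, by simpa using ho⟩
    · intro y hy
      exact hc.O_sub hy

lemma Core.fact2 (hp : PP G X) (hc : Core H t T O) (V : Set X) (hV : IsOpen V)
    (hVn : V.Nonempty) :
    ∃ V' ⊆ V, IsOpen V' ∧ V'.Nonempty ∧ ∃ γ ∈ Gam H t, ∀ x ∈ V', γ • x ∈ Ys H t T := by
  obtain ⟨V1, h1, h2, h3, γ, hγ, h4⟩ := hc.fact2' hp V hV hVn
  by_cases hmeet : ∃ x ∈ V1, ∃ h ∈ H, ∃ i b, h • γ • x ∈ T i b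
  · obtain ⟨x, hx, h, hh, i, b, hmem⟩ := hmeet
    -- invariance of Y' under H
    have hYH : ∀ z ∈ Y' H t T, ∀ h' ∈ H, h' • z ∈ Y' H t T := by
      intro z hz h' hh' l hl i b
      have := hz (l * h') (H.mul_mem hl hh') i b
      rwa [mul_smul] at this
    -- N
    have hNo : IsOpen (V1 ∩ (fun z => (h * γ) • z) ⁻¹' T i b) :=
      h2.inter ((hc.opn i b).preimage (hp.cont _))
    have hNn : (V1 ∩ (fun z => (h * γ) • z) ⁻¹' T i b).Nonempty :=
      ⟨x, hx, by simp only [Set.mem_preimage, mul_smul]; exact hmem⟩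
    have hgap : ∀ z ∈ Y' H t T, z ∈ T i b → b = true → z ∈ Ys H t T := by
      intro z hz hzT hb
      refine ⟨hz, ?_⟩
      intro l hl i' b' hl'
      obtain ⟨k1, k2, k3⟩ := hc.disj l hl i b i' b' z hzT hl'
      exact ⟨k1, k3 ▸ hb⟩
    cases b with
    | true =>
      refine ⟨_, (Set.inter_subset_left).trans h1, hNo, hNn, h * γ,
        (Gam H t).mul_mem (H_le_Gam H t hh) hγ, ?_⟩
      intro z hz
      refine hgap _ ?_ hz.2 rfl
      show (h * γ) • z ∈ Y' H t T
      rw [mul_smul]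
      exact hYH _ (h4 z hz.1) h hh
    | false =>
      refine ⟨_, (Set.inter_subset_left).trans h1, hNo, hNn, t i true * (h * γ),
        (Gam H t).mul_mem (t_mem_Gam H t i true) ((Gam H t).mul_mem (H_le_Gam H t hh) hγ), ?_⟩
      intro z hz
      have hz1 : (h * γ) • z ∈ Y' H t T := by
        rw [mul_smul]
        exact hYH _ (h4 z hz.1) h hh
      have hz2 : (h * γ) • z ∈ T i false := hz.2
      set y := (h * γ) • z with hy
      have hinv : t i false = (t i true)⁻¹ := by simpa using hc.inv i true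
      have hyT : t i true • y ∈ T i true := by
        have := hz1 1 H.one_mem i true
        rwa [one_smul] at this
      rw [mul_smul, ← hy]
      refine ⟨?_, ?_⟩
      · intro l hl i' b'
        by_cases hcase : l = 1 ∧ i = i' ∧ true = !b'
        · obtain ⟨rfl, rfl, hb'⟩ := hcase
          have hb'' : b' = false := by
            cases b' with
            | true => simp at hb'
            | false => rfl
          subst hb''
          rw [one_smul, hinv, inv_smul_smul]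
          exact hz2
        · apply hc.pp
          intro hmem'
          exact hcase (hc.disj l hl i true i' (!b') _ hyT hmem')
      · intro l hl i' b' hl'
        obtain ⟨k1, k2, k3⟩ := hc.disj l hl i true i' b' _ hyT hl'
        exact ⟨k1, k3.symm⟩
  · push Not at hmeet
    refine ⟨V1, h1, h2, h3, γ, hγ, ?_⟩
    intro x hx
    refine ⟨h4 x hx, ?_⟩
    intro h hh i b hmem
    exact absurd hmem (hmeet x hx h hh i b)

lemma Core.wand (hp : PP G X) (hW : Wand X H) (hc : Core H t T O) : Wand X (Gam H t) := by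
  classical
  intro S V hV hVn
  obtain ⟨V1, h1, h2, h3, h4⟩ := shrink S
    (fun s V => ∃ γ ∈ Gam H t, ∀ x ∈ V, γ • s • x ∈ Ys H t T)
    (by
      rintro i V V' hsub ⟨γ, hγ, h⟩
      exact ⟨γ, hγ, fun x hx => h x (hsub hx)⟩)
    (by
      intro s _ V hV hVn
      obtain ⟨V', k1, k2, k3, γ, hγ, k4⟩ := hc.fact2 hp ((fun y => s⁻¹ • y) ⁻¹' V)
        (hV.preimage (hp.cont _)) (by
          obtain ⟨v, hv⟩ := hVn
          exact ⟨s • v, by simpa using hv⟩)
      refine ⟨(fun y => s • y) ⁻¹' V', ?_, k2.preimage (hp.cont _), ?_, γ, hγ, ?_⟩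
      · intro y hy
        have := k1 hy
        simpa using this
      · obtain ⟨v, hv⟩ := k3
        exact ⟨s⁻¹ • v, by simpa using hv⟩
      · intro x hx
        exact k4 _ hx) V hV hVn
  choose! g hg1 hg2 using h4
  obtain ⟨V2, k1, k2, k3, k4⟩ := hW (S.image (fun s => g s * s)) V1 h2 h3
  refine ⟨V2, k1.trans h1, k2, k3, ?_⟩
  intro s hs s' hs' γ hγ x hx y hy hxy
  set η := g s' * γ * (g s)⁻¹ with hη
  have hηx : η • (g s • s • x) = g s' • s' • y := by
    rw [hη, ← hxy]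
    simp only [← mul_smul]
    congr 1
    group
  have hηH : η ∈ H := hc.fact1 (hg2 s hs x (k1 hx)) (hg2 s' hs' y (k1 hy))
    ((Gam H t).mul_mem ((Gam H t).mul_mem (hg1 s' hs') hγ) ((Gam H t).inv_mem (hg1 s hs))) hηx
  have := k4 (g s * s) (Finset.mem_image_of_mem _ hs) (g s' * s') (Finset.mem_image_of_mem _ hs')
    η hηH x hx y hy (by
      rw [show (η * (g s * s)) • x = η • (g s • s • x) by simp only [← mul_smul, mul_assoc],
        show (g s' * s') • y = g s' • s' • y from mul_smul _ _ _]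
      exact hηx)
  rw [hη] at this
  have h5 : g s' * (γ * s) = g s' * s' := by
    rw [← this]; group
  exact mul_left_cancel h5

end H361P
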