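import Pool.Agent.H361R3.PGL.HT
import Pool.Agent.H361R3.PGL.Defs

universe u v

namespace H361P

open Set

variable {G : Type u} {X : Type v} [Group G] [MetricSpace X] [MulAction G X]

theorem ht_of_pp [Countable G] [Infinite G] (hp : PP G X) : IsHighlyTransitiveGroup G := by
  classical
  obtain ⟨H, h1, h2⟩ := exists_subgroup hp
  have hfaith : FaithfulSMul G (G ⧸ H) := by
    refine ⟨?_⟩
    intro g1 g2 hg
    by_contra hne
    have hne' : g2⁻¹ * g1 ≠ 1 := fun h => hne (by rw [inv_mul_eq_one] at h; exact h.symm)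
    obtain ⟨x, hx⟩ := h1 _ hne'
    apply hx
    have h3 := hg (x : G ⧸ H)
    have h4 : ((g1 * x : G) : G ⧸ H) = ((g2 * x : G) : G ⧸ H) := h3
    rw [eq_comm, QuotientGroup.eq] at h4
    have : x⁻¹ * (g2⁻¹ * g1) * x = (g2 * x)⁻¹ * (g1 * x) := by group
    rw [this]; exact h4
  have hinf : Infinite (G ⧸ H) := by
    by_contra hfin
    rw [not_infinite_iff_finite] at hfin
    have hinj : Function.Injective (MulAction.toPermHom G (G ⧸ H)) :=
      MulAction.toPerm_injective
    have : Finite G := Finite.of_injective _ hinj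
    exact not_finite G
  refine ⟨G ⧸ H, inferInstance, hfaith, hinf, ?_⟩
  intro k _
  refine ⟨⟨fun i => Infinite.natEmbedding (G ⧸ H) i,
    fun i j hij => Fin.ext ((Infinite.natEmbedding (G ⧸ H)).injective hij)⟩, ?_⟩
  intro a b ha hb
  have hout : ∀ x : G ⧸ H, ((Quotient.out x : G) : G ⧸ H) = x := fun x => QuotientGroup.out_eq' x
  obtain ⟨g, hg⟩ := h2 k (fun i c => if c then Quotient.out (b i) else Quotient.out (a i)) (by
    intro c i i' hii hmem
    apply hii
    cases c
    · apply ha
      rw [← hout (a i), ← hout (a i'), QuotientGroup.eq]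
      simpa using hmem
    · apply hb
      rw [← hout (b i), ← hout (b i'), QuotientGroup.eq]
      simpa using hmem)
  refine ⟨g, fun i => ?_⟩
  have h3 := hg i
  simp only [if_true, Bool.false_eq_true, if_false] at h3
  rw [← hout (a i), ← hout (b i)]
  show ((g * Quotient.out (a i) : G) : G ⧸ H) = _
  rw [eq_comm, QuotientGroup.eq, ← mul_assoc]
  exact h3

end H361P
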