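import Pool.Agent.H361R3.PGL.Mat2

universe u v

namespace H361P

open Matrix Equiv
open scoped MatrixGroups

theorem nolaw : ∃ a b c d : Perm (Fin 4), cm (cm a b) (cm c d) ≠ 1 :=
  ⟨swap 0 1, swap 1 2, swap 1 2, swap 2 3, by decide⟩

theorem cm3 : ∀ a b : Perm (Fin 3), cm a b = 1 ∨ cm a b = (finRotate 3) ∨
    cm a b = (finRotate 3)⁻¹ := by
  decide

theorem law3 (a b c d : Perm (Fin 3)) : cm (cm a b) (cm c d) = 1 := by
  rcases cm3 a b with h | h | h <;> rcases cm3 c d with h' | h' | h' <;> rw [h, h'] <;> decide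

lemma map_cm {G G' : Type*} [Group G] [Group G'] (f : G →* G') (a b : G) :
    f (cm a b) = cm (f a) (f b) := by
  simp [cm]

lemma law_of_card3 {I : Type*} (hI : Nat.card I = 3) (a b c d : Perm I) :
    cm (cm a b) (cm c d) = 1 := by
  have : Finite I := Nat.finite_of_card_ne_zero (by rw [hI]; norm_num)
  have e : I ≃ Fin 3 := (Finite.equivFinOfCardEq hI)
  have h := law3 (e.permCongrHom a) (e.permCongrHom b) (e.permCongrHom c) (e.permCongrHom d)
  have h2 : e.permCongrHom (cm (cm a b) (cm c d)) = 1 := by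
    simp only [cm, map_mul, map_inv] at h ⊢
    exact h
  exact (MulEquiv.map_eq_one_iff _).1 h2

lemma frattini_data {H : Type*} [Group H] [Finite H] (K : Subgroup H) [K.Normal] (hK : K ≠ ⊥) :
    ∃ (r : ℕ) (_ : r.Prime) (N Q : Subgroup H), Q ≤ K ∧ (∀ h : H, ∃ n ∈ N, ∃ k ∈ K, h = n * k) ∧
      (∀ n ∈ N, ∀ q ∈ Q, n * q * n⁻¹ ∈ Q) ∧
      ∃ x ∈ Q, (∀ q ∈ Q, x * q = q * x) ∧ orderOf x = r := by
  classical
  have hcard : Nat.card K ≠ 1 := by
    intro h; exact hK (Subgroup.card_eq_one.1 h)
  have hrp : (Nat.card K).minFac.Prime := Nat.minFac_prime hcard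
  set r := (Nat.card K).minFac with hr
  have : Fact r.Prime := ⟨hrp⟩
  let Q : Sylow r K := Classical.choice inferInstance
  have hQne : (Q : Subgroup K) ≠ ⊥ := Q.ne_bot_of_dvd_card (Nat.minFac_dvd _)
  have hfr := Sylow.normalizer_sup_eq_top Q
  have hQnt : Nontrivial (Q : Subgroup K) := (Subgroup.nontrivial_iff_ne_bot _).2 hQne
  have hQp : IsPGroup r (Q : Subgroup K) := Q.isPGroup'
  have hcn : Nontrivial (Subgroup.center (Q : Subgroup K)) := hQp.center_nontrivial
  have hcp : IsPGroup r (Subgroup.center (Q : Subgroup K)) := hQp.to_subgroup _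
  obtain ⟨n, hn, hcardc⟩ := (hcp.nontrivial_iff_card).1 hcn
  have hdvd : r ∣ Nat.card (Subgroup.center (Q : Subgroup K)) := by
    rw [hcardc]; exact dvd_pow_self r (by omega)
  obtain ⟨c, hc⟩ := exists_prime_orderOf_dvd_card' r hdvd
  refine ⟨r, hrp, Subgroup.normalizer ((Q : Subgroup K).map K.subtype),
    (Q : Subgroup K).map K.subtype, ?_, ?_, ?_, ((c : (Q : Subgroup K)) : K), ?_, ?_, ?_⟩
  · rintro _ ⟨k, _, rfl⟩
    exact k.2
  · intro h
    have h1 : h ∈ Subgroup.normalizer ((Q : Subgroup K).map K.subtype) ⊔ K := by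
      rw [hfr]; exact Subgroup.mem_top h
    rw [Subgroup.mem_sup_of_normal_right] at h1
    obtain ⟨y, hy, z, hz, hyz⟩ := h1
    exact ⟨y, hy, z, hz, hyz.symm⟩
  · intro n hn q hq
    exact (Subgroup.mem_normalizer_iff.1 hn q).1 hq
  · exact ⟨(c : (Q : Subgroup K)), (c : (Q : Subgroup K)).2, rfl⟩
  · rintro _ ⟨q, hq, rfl⟩
    have h1 := Subgroup.mem_center_iff.1 c.2 ⟨q, hq⟩
    have h2 := congrArg (fun z : (Q : Subgroup K) => ((z : K) : H)) h1
    simpa using h2.symm
  · exact (Subgroup.orderOf_coe _).trans ((Subgroup.orderOf_coe _).trans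
      ((Subgroup.orderOf_coe _).trans hc))

variable {F : Type u} [Field F]

/-- A finite subgroup of `PGL(2,F)` with quotient `S₄` is isomorphic to `S₄`. -/
theorem inj_of_surj {H : Type v} [Group H] [Finite H] (φ : H →* PGL(2, F))
    (hφ : Function.Injective φ) (f : H →* Perm (Fin 4)) (hf : Function.Surjective f) :
    Function.Injective f := by
  classical
  rw [← MonoidHom.ker_eq_bot_iff]
  by_contra hK
  obtain ⟨r, hr, N, Q, hQK, hNK, hconj, x, hxQ, hxc, hxo⟩ := frattini_data f.ker hK
  obtain ⟨a', b', c', d', hne⟩ := nolaw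
  have hsurj : ∀ σ, ∃ n ∈ N, f n = σ := by
    intro σ
    obtain ⟨h, rfl⟩ := hf σ
    obtain ⟨n, hn, k, hk, rfl⟩ := hNK h
    exact ⟨n, hn, by rw [map_mul, MonoidHom.mem_ker.1 hk, mul_one]⟩
  obtain ⟨a, haN, rfl⟩ := hsurj a'
  obtain ⟨b, hbN, rfl⟩ := hsurj b'
  obtain ⟨c, hcN, rfl⟩ := hsurj c'
  obtain ⟨d, hdN, rfl⟩ := hsurj d'
  apply hne
  rw [← map_cm, ← map_cm, ← map_cm]
  -- reduce to a law in H
  have hx1 : x ≠ 1 := by
    rintro rfl
    rw [orderOf_one] at hxo
    exact hr.one_lt.ne' hxo.symm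
  obtain ⟨M, hM⟩ := ProjGenLinGroup.mk_surjective (φ x)
  have hM1 : ProjGenLinGroup.mk M ≠ 1 := by
    rw [hM]
    intro h
    exact hx1 (hφ (by rw [h, map_one]))
  have nsM := ns_of_mk_ne M hM1
  -- conjugates of central elements
  have hconjc : ∀ n ∈ N, ∀ z ∈ Q, (∀ q ∈ Q, z * q = q * z) →
      ∀ q ∈ Q, (n * z * n⁻¹) * q = q * (n * z * n⁻¹) := by
    intro n hn z _ hzc q hq
    have h1 := hconj n⁻¹ (N.inv_mem hn) q hq
    rw [inv_inv] at h1
    have h2 := hzc _ h1
    have h3 : n * (z * (n⁻¹ * q * n)) * n⁻¹ = n * ((n⁻¹ * q * n) * z) * n⁻¹ := by rw [h2]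
    calc (n * z * n⁻¹) * q = n * (z * (n⁻¹ * q * n)) * n⁻¹ := by group
      _ = n * ((n⁻¹ * q * n) * z) * n⁻¹ := h3
      _ = q * (n * z * n⁻¹) := by group
  have lawof : (∀ n ∈ N, ∀ A : GL (Fin 2) F, ProjGenLinGroup.mk A = φ n → Aff M A) →
      cm (cm a b) (cm c d) = 1 := by
    intro hall
    obtain ⟨A, hA⟩ := ProjGenLinGroup.mk_surjective (φ a)
    obtain ⟨B, hB⟩ := ProjGenLinGroup.mk_surjective (φ b)
    obtain ⟨C, hC⟩ := ProjGenLinGroup.mk_surjective (φ c)
    obtain ⟨D, hD⟩ := ProjGenLinGroup.mk_surjective (φ d)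
    have h1 := law_of_aff M A B C D nsM (hall a haN A hA) (hall b hbN B hB) (hall c hcN C hC)
      (hall d hdN D hD)
    apply hφ
    rw [map_cm, map_cm, map_cm, ← hA, ← hB, ← hC, ← hD, ← map_cm, ← map_cm, ← map_cm, h1,
      map_one, map_one]
  by_cases hcase : φ x * φ x ≠ 1 ∨ (2 : F) = 0
  · rw [lawof ?_, map_one]
    intro n hn A hA
    apply aff_of_comm M A nsM
    · have h1 : (n * x * n⁻¹) * x = x * (n * x * n⁻¹) := hconjc n hn x hxQ hxc x hxQ
      have h2 := congrArg φ h1
      simp only [map_mul, map_inv] at h2 ⊢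
      rw [hA, hM]
      exact h2
    · rwa [hM]
  · push Not at hcase
    obtain ⟨hxx, h2⟩ := hcase
    have hxx' : x * x = 1 := hφ (by rw [map_mul, hxx, map_one])
    by_cases hfix : ∀ n ∈ N, n * x * n⁻¹ = x
    · rw [lawof ?_, map_one]
      intro n hn A hA
      apply aff_of_fix
      have h3 := congrArg φ (hfix n hn)
      simp only [map_mul, map_inv] at h3 ⊢
      rw [hA, hM]
      exact h3
    · push Not at hfix
      obtain ⟨n0, hn0, hy⟩ := hfix
      set y := n0 * x * n0⁻¹ with hydef
      have hyQ : y ∈ Q := hconj n0 hn0 x hxQ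
      have hyc : ∀ q ∈ Q, y * q = q * y := hconjc n0 hn0 x hxQ hxc
      have hyy : y * y = 1 := by
        calc y * y = n0 * (x * x) * n0⁻¹ := by rw [hydef]; group
          _ = 1 := by rw [hxx']; group
      have hy1 : y ≠ 1 := by
        intro h
        apply hx1
        have : x = n0⁻¹ * y * n0 := by rw [hydef]; group
        rw [this, h]; group
      obtain ⟨M', hM'⟩ := ProjGenLinGroup.mk_surjective (φ y)
      -- Klein's lemma
      have kl : ∀ z : H, z * x = x * z → z * y = y * z → z = 1 ∨ z = x ∨ z = y ∨ z = x * y := by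
        intro z hzx hzy
        obtain ⟨Z, hZ⟩ := ProjGenLinGroup.mk_surjective (φ z)
        have := klein M M' Z h2 hM1
          (by rw [hM']; intro h; exact hy1 (hφ (by rw [h, map_one])))
          (by rw [hM, hM']; intro h; exact hy (hφ h).symm)
          (by rw [hM]; exact hxx)
          (by rw [hM', ← map_mul, hyy, map_one])
          (by rw [hM, hM', ← map_mul, ← map_mul, hxc y hyQ])
          (by rw [hM, hZ, ← map_mul, ← map_mul, hzx])
          (by rw [hM', hZ, ← map_mul, ← map_mul, hzy])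
        rw [hM, hM', hZ] at this
        rcases this with h | h | h | h
        · left; exact hφ (by rw [h, map_one])
        · right; left; exact hφ h
        · right; right; left; exact hφ h
        · right; right; right; exact hφ (h.trans (map_mul φ x y).symm)
      let S : Set H := {z | z ∈ Q ∧ (∀ q ∈ Q, z * q = q * z) ∧ z * z = 1 ∧ z ≠ 1}
      have hS : S = {x, y, x * y} := by
        ext z
        constructor
        · rintro ⟨hzQ, hzc, hzz, hz1⟩
          rcases kl z (hzc x hxQ) (hzc y hyQ) with h | h | h | h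
          · exact absurd h hz1
          · simp [h]
          · simp [h]
          · simp [h]
        · intro hz
          simp only [Set.mem_insert_iff, Set.mem_singleton_iff] at hz
          rcases hz with rfl | rfl | rfl
          · exact ⟨hxQ, hxc, hxx', hx1⟩
          · exact ⟨hyQ, hyc, hyy, hy1⟩
          · refine ⟨Q.mul_mem hxQ hyQ, ?_, ?_, ?_⟩
            · intro q hq
              rw [mul_assoc, hyc q hq, ← mul_assoc, hxc q hq, mul_assoc]
            · calc x * y * (x * y) = x * (y * x) * y := by group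
                _ = x * (x * y) * y := by rw [hxc y hyQ]
                _ = (x * x) * (y * y) := by group
                _ = 1 := by rw [hxx', hyy, one_mul]
            · intro h
              apply hy
              have h5 : y = x⁻¹ := (eq_inv_of_mul_eq_one_right h)
              have h6 : x⁻¹ = x := inv_eq_of_mul_eq_one_right hxx'
              rw [h5, h6]
      have hScard : Nat.card S = 3 := by
        rw [hS]
        have hxyne : x ≠ x * y := by
          intro h; exact hy1 (by simpa using h.symm)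
        have hyxne : y ≠ x * y := by
          intro h; exact hx1 (by simpa using h.symm)
        have e1 : ({x, y, x * y} : Set H) = (({x, y, x * y} : Finset H) : Set H) := by simp
        rw [e1]
        rw [Nat.card_coe_set_eq, Set.ncard_coe_finset]
        rw [Finset.card_insert_of_notMem, Finset.card_insert_of_notMem, Finset.card_singleton]
        · simpa using hyxne
        · simp only [Finset.mem_insert, Finset.mem_singleton, not_or]
          exact ⟨Ne.symm hy, hxyne⟩
      have hSconj : ∀ n ∈ N, ∀ z ∈ S, n * z * n⁻¹ ∈ S := by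
        rintro n hn z ⟨hzQ, hzc, hzz, hz1⟩
        refine ⟨hconj n hn z hzQ, hconjc n hn z hzQ hzc, ?_, ?_⟩
        · calc n * z * n⁻¹ * (n * z * n⁻¹) = n * (z * z) * n⁻¹ := by group
            _ = 1 := by rw [hzz]; group
        · intro h
          apply hz1
          have : z = n⁻¹ * (n * z * n⁻¹) * n := by group
          rw [this, h]; group
      let e : N →* Perm S :=
        { toFun := fun n =>
            { toFun := fun z => ⟨n * z * (n : H)⁻¹, hSconj n n.2 z z.2⟩
              invFun := fun z => ⟨(n : H)⁻¹ * z * n, by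
                have := hSconj (n : H)⁻¹ (N.inv_mem n.2) z z.2
                rwa [inv_inv] at this⟩
              left_inv := fun z => by apply Subtype.ext; simp only; group
              right_inv := fun z => by apply Subtype.ext; simp only; group }
          map_one' := by
            ext z; simp
          map_mul' := fun p q => by
            ext z; simp [mul_assoc] }
      have hlaw := law_of_card3 hScard (e ⟨a, haN⟩) (e ⟨b, hbN⟩) (e ⟨c, hcN⟩) (e ⟨d, hdN⟩)
      rw [← map_cm, ← map_cm, ← map_cm] at hlaw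
      set g : N := cm (cm ⟨a, haN⟩ ⟨b, hbN⟩) (cm ⟨c, hcN⟩ ⟨d, hdN⟩) with hg
      have hgv : (g : H) = cm (cm a b) (cm c d) := by
        rw [hg]; simp [cm]
      have hxS : x ∈ S := ⟨hxQ, hxc, hxx', hx1⟩
      have hyS : y ∈ S := ⟨hyQ, hyc, hyy, hy1⟩
      have hgx : (g : H) * x * (g : H)⁻¹ = x := by
        have := congrArg (fun p : Perm S => ((p ⟨x, hxS⟩ : S) : H)) hlaw
        exact this
      have hgy : (g : H) * y * (g : H)⁻¹ = y := by
        have := congrArg (fun p : Perm S => ((p ⟨y, hyS⟩ : S) : H)) hlaw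
        exact this
      have hgx' : (g : H) * x = x * g := mul_inv_eq_iff_eq_mul.1 hgx
      have hgy' : (g : H) * y = y * g := mul_inv_eq_iff_eq_mul.1 hgy
      rw [← hgv]
      have hker : (g : H) ∈ Q := by
        rcases kl g hgx' hgy' with h | h | h | h
        · rw [h]; exact Q.one_mem
        · rw [h]; exact hxQ
        · rw [h]; exact hyQ
        · rw [h]; exact Q.mul_mem hxQ hyQ
      exact MonoidHom.mem_ker.1 (hQK hker)

end H361P
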