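import Pool.Agent.H361R3.PGL.Three

universe u v

namespace H361P

open Matrix
open scoped MatrixGroups

variable {F : Type u} [Field F]

lemma infinite_of_faithful (G : Type u) [Group G] [Infinite G] (Ω : Type v) [MulAction G Ω]
    [FaithfulSMul G Ω] : Infinite Ω := by
  by_contra hfin
  rw [not_infinite_iff_finite] at hfin
  have : Finite G :=
    Finite.of_injective (MulAction.toPermHom G Ω) MulAction.toPerm_injective
  exact not_finite G

lemma ktrans_mono (G : Type u) [Group G] (Ω : Type v) [MulAction G Ω] [Infinite Ω] {m k : ℕ}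
    (hmk : m ≤ k) (h : KTransitive G Ω k) : KTransitive G Ω m := by
  have h1 : MulAction.IsMultiplyPretransitive G Ω k := by
    rw [MulAction.isMultiplyPretransitive_iff]
    intro x y
    obtain ⟨g, hg⟩ := h.2 x y x.injective y.injective
    exact ⟨g, by ext i; exact hg i⟩
  have h2 : MulAction.IsMultiplyPretransitive G Ω m :=
    MulAction.isMultiplyPretransitive_of_le' (n := k) hmk (by simp)
  obtain ⟨f, hf⟩ := h.1
  refine ⟨⟨fun i => f (Fin.castLE hmk i), hf.comp (Fin.castLE_injective hmk)⟩, ?_⟩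
  intro a b ha hb
  obtain ⟨g, hg⟩ := MulAction.isMultiplyPretransitive_iff.1 h2 ⟨a, ha⟩ ⟨b, hb⟩
  exact ⟨g, fun i => congrFun (congrArg DFunLike.coe hg) i⟩

theorem hasK_le_three (hF : AlgebraicOverFiniteField F) [Infinite F] {k : ℕ}
    (hk : HasFaithfulKTransitive (PGL(2, F)) k) : k ≤ 3 := by
  by_contra hlt
  obtain ⟨Ω, act, hfaith, htr⟩ := hk
  have := infinite_of_faithful (PGL(2, F)) Ω
  exact no_four hF (ktrans_mono (PGL(2, F)) Ω (by omega) htr)

theorem td_eq_three (hF : AlgebraicOverFiniteField F) [Infinite F] : td (PGL(2, F)) = 3 := by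
  apply le_antisymm
  · refine iSup₂_le ?_
    rintro k ⟨_, hk⟩
    exact_mod_cast hasK_le_three hF hk
  · have : ((3 : ℕ) : ℕ∞) ≤ td (PGL(2, F)) :=
      le_iSup₂_of_le (f := fun (k : ℕ) (_ : 1 ≤ k ∧ HasFaithfulKTransitive (PGL(2, F)) k) =>
        (k : ℕ∞)) 3 ⟨by norm_num, three F⟩ le_rfl
    exact_mod_cast this

theorem td_eq_top (G : Type u) [Group G] (h : IsHighlyTransitiveGroup G) : td G = ⊤ := by
  obtain ⟨Ω, act, hfaith, _, htr⟩ := h
  rw [ENat.eq_top_iff_forall_ge]
  intro m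
  have h1 : ((m + 1 : ℕ) : ℕ∞) ≤ td G :=
    le_iSup₂_of_le (f := fun (k : ℕ) (_ : 1 ≤ k ∧ HasFaithfulKTransitive G k) =>
      (k : ℕ∞)) (m + 1) ⟨by omega, Ω, act, hfaith, htr (m + 1) (by omega)⟩ le_rfl
  exact le_trans (by exact_mod_cast Nat.le_succ m) h1

theorem not_ht (hF : AlgebraicOverFiniteField F) [Infinite F] :
    ¬ IsHighlyTransitiveGroup (PGL(2, F)) := by
  intro h
  have h1 := td_eq_top _ h
  rw [td_eq_three hF] at h1
  exact absurd h1 (by decide)

end H361P
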