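import Pool.Agent.H361R3.PGL.Step

namespace H361P

open Set

variable {G X : Type*} [Group G] [MetricSpace X] [MulAction G X]

/-- Admissible states of the construction. -/
def St (G X : Type*) [Group G] [MetricSpace X] [MulAction G X] : Type _ :=
  {p : Subgroup G × Finset G // Wand X p.1 ∧ ∀ q ∈ p.2, q ∉ p.1}

/-- What a task asks for. -/
def Good (τ : (Σ k : ℕ, Fin k → Bool → G) ⊕ G) (s s' : St G X) : Prop :=
  match τ with
  | .inl ⟨k, c⟩ => (∀ b (i i' : Fin k), i ≠ i' → (c i b)⁻¹ * c i' b ∉ s.1.1) →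
      ∃ g : G, ∀ i, (c i true)⁻¹ * g * c i false ∈ s'.1.1
  | .inr g => g ≠ 1 → ∃ x : G, x⁻¹ * g * x ∈ s'.1.2

lemma next (hp : PP G X) (s : St G X) (τ : (Σ k : ℕ, Fin k → Bool → G) ⊕ G) :
    ∃ s' : St G X, s.1.1 ≤ s'.1.1 ∧ s.1.2 ⊆ s'.1.2 ∧ Good τ s s' := by
  classical
  obtain ⟨⟨H, P⟩, hW, hP⟩ := s
  rcases τ with ⟨k, c⟩ | g
  · by_cases hc : ∀ b (i i' : Fin k), i ≠ i' → (c i b)⁻¹ * c i' b ∉ H
    · obtain ⟨H', h1, h2, h3, h4⟩ := step hp hW P hP c hc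
      exact ⟨⟨(H', P), h2, h3⟩, h1, Finset.Subset.refl _, fun _ => h4⟩
    · exact ⟨⟨(H, P), hW, hP⟩, le_refl _, Finset.Subset.refl _, fun h => absurd h hc⟩
  · by_cases hg : g = 1
    · exact ⟨⟨(H, P), hW, hP⟩, le_refl _, Finset.Subset.refl _, fun h => absurd hg h⟩
    · obtain ⟨x, hx⟩ := conj_out hp hW g hg
      refine ⟨⟨(H, insert (x⁻¹ * g * x) P), hW, ?_⟩, le_refl _, Finset.subset_insert _ _,
        fun _ => ⟨x, Finset.mem_insert_self _ _⟩⟩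
      intro q hq
      rcases Finset.mem_insert.1 hq with rfl | hq
      · exact hx
      · exact hP q hq

theorem exists_subgroup [Countable G] (hp : PP G X) :
    ∃ H : Subgroup G, (∀ g : G, g ≠ 1 → ∃ x : G, x⁻¹ * g * x ∉ H) ∧
      ∀ (k : ℕ) (c : Fin k → Bool → G), (∀ b (i i' : Fin k), i ≠ i' → (c i b)⁻¹ * c i' b ∉ H) →
        ∃ g : G, ∀ i, (c i true)⁻¹ * g * c i false ∈ H := by
  classical
  haveI : Nonempty ((Σ k : ℕ, Fin k → Bool → G) ⊕ G) := ⟨Sum.inr 1⟩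
  obtain ⟨e, he⟩ := exists_surjective_nat ((Σ k : ℕ, Fin k → Bool → G) ⊕ G)
  choose nx hnx1 hnx2 hnx3 using next (G := G) (X := X) hp
  let s0 : St G X := ⟨(⊥, ∅), wand_bot hp, by simp⟩
  let sq : ℕ → St G X := fun n => Nat.rec s0 (fun m s => nx s (e m)) n
  have hsucc : ∀ n, sq (n + 1) = nx (sq n) (e n) := fun n => rfl
  have hmonoH : Monotone (fun n => (sq n).1.1) :=
    monotone_nat_of_le_succ (fun n => by simp only [hsucc]; exact hnx1 _ _)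
  have hmonoP : Monotone (fun n => (sq n).1.2) :=
    monotone_nat_of_le_succ (fun n => by simp only [hsucc]; exact hnx2 _ _)
  have hmem : ∀ x, x ∈ (⨆ n, (sq n).1.1) ↔ ∃ n, x ∈ (sq n).1.1 := fun x =>
    Subgroup.mem_iSup_of_directed hmonoH.directed_le
  refine ⟨⨆ n, (sq n).1.1, ?_, ?_⟩
  · intro g hg
    obtain ⟨n, hn⟩ := he (Sum.inr g)
    have h1 := hnx3 (sq n) (e n)
    rw [← hsucc, hn] at h1
    obtain ⟨x, hx⟩ := h1 hg
    refine ⟨x, ?_⟩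
    rw [hmem]
    rintro ⟨m, hm⟩
    have h2 : x⁻¹ * g * x ∈ (sq (max m (n + 1))).1.1 := hmonoH (le_max_left _ _) hm
    have h3 : x⁻¹ * g * x ∈ (sq (max m (n + 1))).1.2 := hmonoP (le_max_right _ _) hx
    exact (sq (max m (n + 1))).2.2 _ h3 h2
  · intro k c hc
    obtain ⟨n, hn⟩ := he (Sum.inl ⟨k, c⟩)
    have h1 := hnx3 (sq n) (e n)
    rw [← hsucc, hn] at h1
    obtain ⟨g, hg⟩ := h1 (fun b i i' hii hmem' => hc b i i' hii ((hmem _).2 ⟨n, hmem'⟩))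
    exact ⟨g, fun i => (hmem _).2 ⟨n + 1, hg i⟩⟩

end H361P
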