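import Pool.Agent.H361R3.PGL.AbsVal
import Pool.Agent.H361R3.PGL.FinCase

universe u v

namespace H361P

open Matrix Equiv
open scoped MatrixGroups

variable {F : Type u} [Field F]

/-- `PGL(2,F)` is locally finite if `F` is algebraic over a finite field. -/
theorem closure_finite (hF : AlgebraicOverFiniteField F) (S : Set (PGL(2, F))) (hS : S.Finite) :
    Finite (Subgroup.closure S) := by
  classical
  obtain ⟨k, hk, halg⟩ := hF
  choose A hA using (ProjGenLinGroup.mk_surjective (n := Fin 2) (R := F))
  let E : Set F := ⋃ s ∈ S, ⋃ i : Fin 2, ⋃ j : Fin 2, {(A s) i j}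
  have hE : E.Finite := by
    refine Set.Finite.biUnion hS (fun s _ => ?_)
    exact Set.finite_iUnion (fun i => Set.finite_iUnion (fun j => Set.finite_singleton _))
  have : Finite E := hE
  let K := IntermediateField.adjoin k E
  have hfd : FiniteDimensional k K := IntermediateField.finiteDimensional_adjoin
    (fun x _ => (halg.isAlgebraic x).isIntegral)
  have hKfin : Finite K := Module.finite_of_finite k
  have hmat : Finite (Matrix (Fin 2) (Fin 2) K) := inferInstanceAs (Finite (Fin 2 → Fin 2 → K))
  have hGL : Finite (GL (Fin 2) K) :=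
    Finite.of_injective (fun g : GL (Fin 2) K => g.val) (fun a b h => Units.ext h)
  let ψ : GL (Fin 2) K →* PGL(2, F) :=
    (ProjGenLinGroup.mk).comp (GeneralLinearGroup.map (n := Fin 2) (algebraMap K F))
  have hle : Subgroup.closure S ≤ ψ.range := by
    rw [Subgroup.closure_le]
    intro s hs
    have hent : ∀ i j, (A s) i j ∈ K := fun i j =>
      IntermediateField.subset_adjoin k E (Set.mem_biUnion hs
        (Set.mem_iUnion.2 ⟨i, Set.mem_iUnion.2 ⟨j, rfl⟩⟩))
    let B : Matrix (Fin 2) (Fin 2) K := fun i j => ⟨(A s) i j, hent i j⟩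
    have hB : B.det ≠ 0 := by
      intro h
      have h1 : (A s).val.det = 0 := by
        have h2 := congrArg (fun z : K => (z : F)) h
        rw [Matrix.det_fin_two] at h2 ⊢
        simpa [B] using h2
      exact (A s).det_ne_zero h1
    refine ⟨GeneralLinearGroup.mkOfDetNeZero B hB, ?_⟩
    show ProjGenLinGroup.mk _ = s
    rw [← hA s]
    congr 1
    ext i j
    rfl
  have hfin : (ψ.range : Set (PGL(2, F))).Finite := Set.finite_range ψ
  exact (hfin.subset hle).to_subtype

end H361P
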