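import Mathlib

universe u

namespace H361P

open Matrix
open scoped MatrixGroups

variable {F : Type u} [Field F]

/-- `M` is scalar iff its class is trivial. -/
lemma mk_eq_one_of_entries (M : GL (Fin 2) F) (h01 : M 0 1 = 0) (h10 : M 1 0 = 0)
    (hd : M 0 0 = M 1 1) : ProjGenLinGroup.mk M = 1 := by
  have hdet : M.val.det ≠ 0 := M.det_ne_zero
  have f5 : M 0 0 ≠ 0 := by
    intro h
    apply hdet
    rw [Matrix.det_fin_two, h01, h]; ring
  rw [← ProjGenLinGroup.mk_scalar (Units.mk0 (M 0 0) f5)]
  congr 1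
  ext i j
  fin_cases i <;> fin_cases j
  · simp
  · simpa using h01
  · simpa using h10
  · simpa using hd.symm

/-- The commutant of a nonscalar `2×2` matrix. -/
lemma commutant (M A : Matrix (Fin 2) (Fin 2) F)
    (hM : ¬ (M 0 1 = 0 ∧ M 1 0 = 0 ∧ M 0 0 = M 1 1)) (h : A * M = M * A) :
    ∃ α β : F, A = α • M + β • (1 : Matrix (Fin 2) (Fin 2) F) := by
  have e00 := congrFun (congrFun h 0) 0
  have e01 := congrFun (congrFun h 0) 1
  have e10 := congrFun (congrFun h 1) 0
  have e11 := congrFun (congrFun h 1) 1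
  simp only [Matrix.mul_apply, Fin.sum_univ_two] at e00 e01 e10 e11
  by_cases h01 : M 0 1 = 0
  · by_cases h10 : M 1 0 = 0
    · have hd : M 0 0 - M 1 1 ≠ 0 := by
        intro h'; exact hM ⟨h01, h10, sub_eq_zero.1 h'⟩
      have a01 : A 0 1 = 0 := by
        have : A 0 1 * (M 0 0 - M 1 1) = 0 := by rw [h01] at e01; linear_combination -e01
        exact (mul_eq_zero.1 this).resolve_right hd
      have a10 : A 1 0 = 0 := by
        have : A 1 0 * (M 0 0 - M 1 1) = 0 := by rw [h10] at e10; linear_combination e10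
        exact (mul_eq_zero.1 this).resolve_right hd
      refine ⟨(A 0 0 - A 1 1) / (M 0 0 - M 1 1), A 0 0 - (A 0 0 - A 1 1) / (M 0 0 - M 1 1) * M 0 0, ?_⟩
      ext i j
      fin_cases i <;> fin_cases j
      · simp
      · simp [h01, a01]
      · simp [h10, a10]
      · simp; field_simp; ring
    · refine ⟨A 1 0 / M 1 0, A 0 0 - A 1 0 / M 1 0 * M 0 0, ?_⟩
      ext i j
      fin_cases i <;> fin_cases j
      · simp
      · simp only [Fin.zero_eta, Fin.mk_one, Matrix.add_apply, Matrix.smul_apply, smul_eq_mul]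
        rw [Matrix.one_apply_ne (by decide)]
        field_simp
        linear_combination e00
      · simp; field_simp
      · simp; field_simp; linear_combination e10
  · refine ⟨A 0 1 / M 0 1, A 0 0 - A 0 1 / M 0 1 * M 0 0, ?_⟩
    ext i j
    fin_cases i <;> fin_cases j
    · simp
    · simp; field_simp
    · simp; field_simp; linear_combination -e00
    · simp; field_simp; linear_combination -e01

/-- Nonscalar as a predicate. -/
def NS (M : Matrix (Fin 2) (Fin 2) F) : Prop := ¬ (M 0 1 = 0 ∧ M 1 0 = 0 ∧ M 0 0 = M 1 1)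

lemma ns_of_mk_ne (M : GL (Fin 2) F) (h : ProjGenLinGroup.mk M ≠ 1) : NS M.val := by
  rintro ⟨h1, h2, h3⟩
  exact h (mk_eq_one_of_entries M h1 h2 h3)

lemma commute_of_commute (M A B : Matrix (Fin 2) (Fin 2) F) (hM : NS M) (hA : A * M = M * A)
    (hB : B * M = M * B) : A * B = B * A := by
  obtain ⟨α, β, rfl⟩ := commutant M A hM hA
  simp only [add_mul, mul_add, smul_mul_assoc, mul_smul_comm, one_mul, mul_one, hB]

/-- The affine relation. -/
def Aff (M A : GL (Fin 2) F) : Prop :=
  ∃ α β : F, A.val * M.val = (α • M.val + β • (1 : Matrix (Fin 2) (Fin 2) F)) * A.val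

lemma aff_trace_det (M A : GL (Fin 2) F) (α β : F)
    (h : A.val * M.val = (α • M.val + β • (1 : Matrix (Fin 2) (Fin 2) F)) * A.val) :
    α * M.val.trace + 2 * β = M.val.trace ∧
      α ^ 2 * M.val.det + α * β * M.val.trace + β ^ 2 = M.val.det := by
  have hA : IsUnit A.val := A.isUnit
  have h1 : (α • M.val + β • (1 : Matrix (Fin 2) (Fin 2) F)) =
      A.val * M.val * (A⁻¹ : GL (Fin 2) F).val := by
    rw [h, mul_assoc, ← Units.val_mul, mul_inv_cancel, Units.val_one, mul_one]
  constructor
  · have h2 := congrArg Matrix.trace h1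
    rw [Matrix.trace_mul_comm, ← mul_assoc, ← Units.val_mul, inv_mul_cancel, Units.val_one,
      one_mul] at h2
    simp [Matrix.trace_fin_two] at h2 ⊢
    linear_combination h2
  · have h2 := congrArg Matrix.det h
    rw [Matrix.det_mul, Matrix.det_mul, mul_comm A.val.det] at h2
    have h3 : A.val.det ≠ 0 := A.det_ne_zero
    have h4 := mul_right_cancel₀ h3 h2
    simp [Matrix.det_fin_two, Matrix.trace_fin_two] at h4 ⊢
    linear_combination -h4

/-- The commutator convention used here. -/
def cm {G : Type*} [Group G] (a b : G) : G := a⁻¹ * b⁻¹ * a * b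

lemma aff_cm (M A B : GL (Fin 2) F) (hA : Aff M A) (hB : Aff M B) :
    (cm A B).val * M.val = M.val * (cm A B).val := by
  obtain ⟨α, β, h1⟩ := hA
  obtain ⟨α', β', h2⟩ := hB
  obtain ⟨t1, d1⟩ := aff_trace_det M A α β h1
  obtain ⟨t2, d2⟩ := aff_trace_det M B α' β' h2
  have key : β * (α' - 1) = β' * (α - 1) := by
    by_cases h20 : (2 : F) = 0
    · by_cases ht : M.val.trace = 0
      · rw [ht] at d1 d2
        have : (β * (α' - 1) - β' * (α - 1)) ^ 2 = 0 := by
          linear_combination (α' - 1) ^ 2 * d1 + (α - 1) ^ 2 * d2 +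
            (-(β * β' * (α - 1) * (α' - 1)) - M.val.det * ((α - 1) ^ 2 * (α' - 1) ^ 2 +
              (α' - 1) ^ 2 * (α - 1) + (α - 1) ^ 2 * (α' - 1))) * h20
        exact sub_eq_zero.1 (pow_eq_zero_iff (by norm_num) |>.1 this)
      · have e1 : α - 1 = 0 := by
          have : (α - 1) * M.val.trace = 0 := by linear_combination t1 - β * h20
          exact (mul_eq_zero.1 this).resolve_right ht
        have e2 : α' - 1 = 0 := by
          have : (α' - 1) * M.val.trace = 0 := by linear_combination t2 - β' * h20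
          exact (mul_eq_zero.1 this).resolve_right ht
        rw [e1, e2]; ring
    · have : (2 : F) * (β * (α' - 1) - β' * (α - 1)) = 0 := by
        linear_combination (α' - 1) * t1 - (α - 1) * t2
      have := (mul_eq_zero.1 this).resolve_left h20
      exact sub_eq_zero.1 this
  -- (A B) M = (αα' M + (α'β+β')) A B, and similarly for B A
  have hAB : (A * B).val * M.val =
      ((α * α') • M.val + (α' * β + β') • (1 : Matrix (Fin 2) (Fin 2) F)) * (A * B).val := by
    rw [Units.val_mul, mul_assoc, h2]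
    have : A.val * ((α' • M.val + β' • (1 : Matrix (Fin 2) (Fin 2) F)) * B.val) =
        α' • ((A.val * M.val) * B.val) + β' • (A.val * B.val) := by
      simp only [add_mul, mul_add, smul_mul_assoc, mul_smul_comm, one_mul, mul_assoc]
    rw [this, h1]
    simp only [add_mul, smul_mul_assoc, one_mul, mul_assoc, smul_add, smul_smul, add_smul]
    rw [mul_comm α' α]
    abel
  have hBA : (B * A).val * M.val =
      ((α * α') • M.val + (α' * β + β') • (1 : Matrix (Fin 2) (Fin 2) F)) * (B * A).val := by
    have e : α' * β + β' = α * β' + β := by linear_combination key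
    rw [e, Units.val_mul, mul_assoc, h1]
    have : B.val * ((α • M.val + β • (1 : Matrix (Fin 2) (Fin 2) F)) * A.val) =
        α • ((B.val * M.val) * A.val) + β • (B.val * A.val) := by
      simp only [add_mul, mul_add, smul_mul_assoc, mul_smul_comm, one_mul, mul_assoc]
    rw [this, h2]
    simp only [add_mul, smul_mul_assoc, one_mul, mul_assoc, smul_add, smul_smul, add_smul]
    abel
  -- cm A B = (B A)⁻¹ (A B)
  have hcm : cm A B = (B * A)⁻¹ * (A * B) := by unfold cm; group
  set P := (α * α') • M.val + (α' * β + β') • (1 : Matrix (Fin 2) (Fin 2) F) with hP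
  have hinv : ((B * A)⁻¹ : GL (Fin 2) F).val * P = M.val * ((B * A)⁻¹ : GL (Fin 2) F).val := by
    have h3 : ((B * A)⁻¹ : GL (Fin 2) F).val * ((B * A).val * M.val) *
        ((B * A)⁻¹ : GL (Fin 2) F).val = ((B * A)⁻¹ : GL (Fin 2) F).val * (P * (B * A).val) *
        ((B * A)⁻¹ : GL (Fin 2) F).val := by rw [hBA]
    have e1 : ((B * A)⁻¹ : GL (Fin 2) F).val * (B * A).val = 1 := by
      rw [← Units.val_mul, inv_mul_cancel, Units.val_one]
    have e2 : (B * A).val * ((B * A)⁻¹ : GL (Fin 2) F).val = 1 := by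
      rw [← Units.val_mul, mul_inv_cancel, Units.val_one]
    rw [← mul_assoc, e1, one_mul] at h3
    rw [mul_assoc, mul_assoc, e2, mul_one] at h3
    exact h3.symm
  rw [hcm, Units.val_mul, mul_assoc, hAB, ← mul_assoc, hinv, mul_assoc]

end H361P
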