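import Pool.Agent.H361R3.PGL.Mat

universe u

namespace H361P

open Matrix
open scoped MatrixGroups

variable {F : Type u} [Field F]

lemma law_of_aff (M A B C D : GL (Fin 2) F) (hM : NS M.val) (hA : Aff M A) (hB : Aff M B)
    (hC : Aff M C) (hD : Aff M D) : cm (cm A B) (cm C D) = 1 := by
  have h1 := aff_cm M A B hA hB
  have h2 := aff_cm M C D hC hD
  have h3 := commute_of_commute M.val _ _ hM h1 h2
  have h4 : cm A B * cm C D = cm C D * cm A B := Units.ext h3
  have : ∀ p q : GL (Fin 2) F, p * q = q * p → cm p q = 1 := by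
    intro p q hpq
    unfold cm
    rw [mul_assoc, hpq]
    group
  exact this _ _ h4

lemma comm_pm (P Q : GL (Fin 2) F)
    (h : ProjGenLinGroup.mk P * ProjGenLinGroup.mk Q = ProjGenLinGroup.mk Q * ProjGenLinGroup.mk P) :
    P.val * Q.val = Q.val * P.val ∨ (P.val * Q.val = -(Q.val * P.val) ∧ (2 : F) ≠ 0) := by
  rw [← map_mul, ← map_mul] at h
  obtain ⟨u, hu⟩ := ProjGenLinGroup.mk_eq_mk_iff.1 h
  have hval : (u : F) • (P.val * Q.val) = Q.val * P.val := by
    have := congrArg Units.val hu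
    rw [Units.val_mul, Units.val_mul, Units.val_mul] at this
    rw [← this]
    ext i j
    fin_cases i <;> fin_cases j <;> simp [Matrix.mul_apply] <;> ring
  have hdet := congrArg Matrix.det hval
  rw [Matrix.det_smul, Matrix.det_mul, Matrix.det_mul, mul_comm Q.val.det] at hdet
  have hne : P.val.det * Q.val.det ≠ 0 := mul_ne_zero P.det_ne_zero Q.det_ne_zero
  have hu2 : (u : F) ^ 2 = 1 := by
    have : ((u : F) ^ 2 - 1) * (P.val.det * Q.val.det) = 0 := by
      simp only [Fintype.card_fin] at hdet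
      linear_combination hdet
    exact sub_eq_zero.1 ((mul_eq_zero.1 this).resolve_right hne)
  by_cases h1 : (u : F) = 1
  · left; rw [← hval, h1, one_smul]
  · right
    have hm1 : (u : F) = -1 := by
      have : ((u : F) - 1) * ((u : F) + 1) = 0 := by linear_combination hu2
      exact eq_neg_of_add_eq_zero_left ((mul_eq_zero.1 this).resolve_left (sub_ne_zero.2 h1))
    refine ⟨?_, ?_⟩
    · rw [← hval, hm1]; simp
    · intro h2
      apply h1
      rw [hm1]
      linear_combination -h2

lemma trace_zero_of_anti (M N : GL (Fin 2) F) (h2 : (2 : F) ≠ 0)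
    (h : M.val * N.val = -(N.val * M.val)) : M.val.trace = 0 := by
  have e1 : (N⁻¹ : GL (Fin 2) F).val * N.val = 1 := by
    rw [← Units.val_mul, inv_mul_cancel, Units.val_one]
  have e2 : N.val * (N⁻¹ : GL (Fin 2) F).val = 1 := by
    rw [← Units.val_mul, mul_inv_cancel, Units.val_one]
  have h1 : M.val = -(N.val * M.val * (N⁻¹ : GL (Fin 2) F).val) := by
    rw [← neg_mul, ← h, mul_assoc, e2, mul_one]
  have h3 : M.val.trace = - M.val.trace := by
    conv_lhs => rw [h1]
    rw [Matrix.trace_neg, Matrix.trace_mul_comm, ← mul_assoc, e1, one_mul]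
  have : (2 : F) * M.val.trace = 0 := by linear_combination h3
  exact (mul_eq_zero.1 this).resolve_left h2

lemma sq_of_trace_zero (M : GL (Fin 2) F) (h : M.val.trace = 0) :
    ProjGenLinGroup.mk M * ProjGenLinGroup.mk M = 1 := by
  rw [← map_mul]
  rw [Matrix.trace_fin_two] at h
  apply mk_eq_one_of_entries
  · simp only [Units.val_mul, Matrix.mul_apply, Fin.sum_univ_two]
    linear_combination M.val 0 1 * h
  · simp only [Units.val_mul, Matrix.mul_apply, Fin.sum_univ_two]
    linear_combination M.val 1 0 * h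
  · simp only [Units.val_mul, Matrix.mul_apply, Fin.sum_univ_two]
    linear_combination (M.val 0 0 - M.val 1 1) * h

lemma entries_of_mk_eq_one (M : GL (Fin 2) F) (h : ProjGenLinGroup.mk M = 1) :
    M 0 1 = 0 ∧ M 1 0 = 0 ∧ M 0 0 = M 1 1 := by
  have h' : ProjGenLinGroup.mk (1 : GL (Fin 2) F) = ProjGenLinGroup.mk M := by
    rw [h, map_one]
  obtain ⟨u, hu⟩ := ProjGenLinGroup.mk_eq_mk_iff.1 h'
  rw [← hu, one_mul]
  simp

lemma trace_zero_of_sq (M : GL (Fin 2) F) (hne : ProjGenLinGroup.mk M ≠ 1)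
    (h : ProjGenLinGroup.mk M * ProjGenLinGroup.mk M = 1) : M.val.trace = 0 := by
  rw [← map_mul] at h
  obtain ⟨h1, h2, h3⟩ := entries_of_mk_eq_one _ h
  simp only [Units.val_mul, Matrix.mul_apply, Fin.sum_univ_two] at h1 h2 h3
  by_contra ht
  rw [Matrix.trace_fin_two] at ht
  apply ns_of_mk_ne M hne
  refine ⟨?_, ?_, ?_⟩
  · have : M.val 0 1 * (M.val 0 0 + M.val 1 1) = 0 := by linear_combination h1
    exact (mul_eq_zero.1 this).resolve_right ht
  · have : M.val 1 0 * (M.val 0 0 + M.val 1 1) = 0 := by linear_combination h2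
    exact (mul_eq_zero.1 this).resolve_right ht
  · have : (M.val 0 0 - M.val 1 1) * (M.val 0 0 + M.val 1 1) = 0 := by linear_combination h3
    exact sub_eq_zero.1 ((mul_eq_zero.1 this).resolve_right ht)

lemma aff_of_comm (M A : GL (Fin 2) F) (hM : NS M.val)
    (hc : ProjGenLinGroup.mk (A * M * A⁻¹) * ProjGenLinGroup.mk M =
      ProjGenLinGroup.mk M * ProjGenLinGroup.mk (A * M * A⁻¹))
    (h : ProjGenLinGroup.mk M * ProjGenLinGroup.mk M ≠ 1 ∨ (2 : F) = 0) : Aff M A := by
  rcases comm_pm (A * M * A⁻¹) M hc with h1 | ⟨h1, h2⟩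
  · obtain ⟨α, β, h3⟩ := commutant M.val (A * M * A⁻¹).val hM h1
    refine ⟨α, β, ?_⟩
    rw [← h3, Units.val_mul, Units.val_mul, mul_assoc, ← Units.val_mul A⁻¹, inv_mul_cancel,
      Units.val_one, mul_one]
  · rcases h with h | h
    · exfalso
      apply h
      apply sq_of_trace_zero
      apply trace_zero_of_anti M (A * M * A⁻¹) h2
      rw [h1, neg_neg]
    · exact absurd h h2

lemma aff_of_fix (M A : GL (Fin 2) F)
    (hc : ProjGenLinGroup.mk (A * M * A⁻¹) = ProjGenLinGroup.mk M) : Aff M A := by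
  obtain ⟨u, hu⟩ := ProjGenLinGroup.mk_eq_mk_iff.1 hc.symm
  refine ⟨u, 0, ?_⟩
  have h1 : A * M = M * GeneralLinearGroup.scalar (Fin 2) u * A := by
    rw [hu]; group
  have h2 := congrArg Units.val h1
  rw [Units.val_mul, Units.val_mul, Units.val_mul] at h2
  rw [h2]
  congr 1
  ext i j
  fin_cases i <;> fin_cases j <;> simp [Matrix.mul_apply] <;> ring

lemma smul_val_eq_zero (P : GL (Fin 2) F) (a : F) (h : a • P.val = 0) : a = 0 := by
  have h1 : a • (P.val * (P⁻¹ : GL (Fin 2) F).val) = 0 := by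
    rw [← smul_mul_assoc, h, zero_mul]
  rw [← Units.val_mul, mul_inv_cancel, Units.val_one] at h1
  have := congrFun (congrFun h1 0) 0
  simpa using this

lemma mk_eq_of_smul (P Q : GL (Fin 2) F) (a : F) (h : Q.val = a • P.val) :
    ProjGenLinGroup.mk Q = ProjGenLinGroup.mk P := by
  have ha : a ≠ 0 := by
    rintro rfl
    rw [zero_smul] at h
    apply Q.det_ne_zero
    rw [h]; simp
  symm
  rw [ProjGenLinGroup.mk_eq_mk_iff]
  refine ⟨Units.mk0 a ha, ?_⟩
  apply Units.ext
  rw [h, Units.val_mul]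
  ext i j
  fin_cases i <;> fin_cases j <;> simp [Matrix.mul_apply] <;> ring

lemma mk_one_of_smul (Q : GL (Fin 2) F) (a : F) (h : Q.val = a • (1 : Matrix (Fin 2) (Fin 2) F)) :
    ProjGenLinGroup.mk Q = 1 := by
  rw [mk_eq_of_smul 1 Q a (by rw [h, Units.val_one]), map_one]

/-- The centralizer of a Klein four-group. -/
lemma klein (M N Z : GL (Fin 2) F) (h2 : (2 : F) ≠ 0)
    (hx1 : ProjGenLinGroup.mk M ≠ 1) (hy1 : ProjGenLinGroup.mk N ≠ 1)
    (hxy : ProjGenLinGroup.mk M ≠ ProjGenLinGroup.mk N)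
    (hx2 : ProjGenLinGroup.mk M * ProjGenLinGroup.mk M = 1)
    (hy2 : ProjGenLinGroup.mk N * ProjGenLinGroup.mk N = 1)
    (hc : ProjGenLinGroup.mk M * ProjGenLinGroup.mk N = ProjGenLinGroup.mk N * ProjGenLinGroup.mk M)
    (hzx : ProjGenLinGroup.mk Z * ProjGenLinGroup.mk M = ProjGenLinGroup.mk M * ProjGenLinGroup.mk Z)
    (hzy : ProjGenLinGroup.mk Z * ProjGenLinGroup.mk N = ProjGenLinGroup.mk N * ProjGenLinGroup.mk Z) :
    ProjGenLinGroup.mk Z = 1 ∨ ProjGenLinGroup.mk Z = ProjGenLinGroup.mk M ∨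
      ProjGenLinGroup.mk Z = ProjGenLinGroup.mk N ∨
      ProjGenLinGroup.mk Z = ProjGenLinGroup.mk M * ProjGenLinGroup.mk N := by
  have nsM := ns_of_mk_ne M hx1
  have nsN := ns_of_mk_ne N hy1
  have tM := trace_zero_of_sq M hx1 hx2
  have tN := trace_zero_of_sq N hy1 hy2
  have hanti : M.val * N.val = -(N.val * M.val) := by
    rcases comm_pm M N hc with h | ⟨h, _⟩
    · exfalso
      obtain ⟨α, β, h3⟩ := commutant M.val N.val nsM h.symm
      have h4 := congrArg Matrix.trace h3
      rw [Matrix.trace_add, Matrix.trace_smul, Matrix.trace_smul, tM, tN, Matrix.trace_one] at h4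
      simp at h4
      have hβ : β = 0 := by
        rcases h4 with h4 | h4
        · exact h4
        · exact absurd h4 h2
      rw [hβ, zero_smul, add_zero] at h3
      exact hxy (mk_eq_of_smul M N α h3).symm
    · exact h
  -- anticommuting with one and commuting with the other
  have key : ∀ P Q Z : GL (Fin 2) F, NS P.val → P.val * Q.val = -(Q.val * P.val) →
      Z.val * P.val = P.val * Z.val → Z.val * Q.val = -(Q.val * Z.val) →
      ProjGenLinGroup.mk Z = ProjGenLinGroup.mk P := by
    intro P Q Z nsP hPQ hZP hZQ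
    obtain ⟨α, β, h3⟩ := commutant P.val Z.val nsP hZP
    have h4 : (2 * β) • Q.val = 0 := by
      rw [h3] at hZQ
      simp only [add_mul, mul_add, smul_mul_assoc, mul_smul_comm, one_mul, mul_one, hPQ,
        smul_neg, neg_add] at hZQ
      have : β • Q.val = - (β • Q.val) := by
        exact add_left_cancel hZQ
      rw [two_mul, add_smul]
      nth_rewrite 1 [this]
      simp
    have h5 := smul_val_eq_zero Q _ h4
    have hβ : β = 0 := (mul_eq_zero.1 h5).resolve_left h2
    rw [hβ, zero_smul, add_zero] at h3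
    exact mk_eq_of_smul P Z α h3
  have hanti' : N.val * M.val = -(M.val * N.val) := by rw [hanti, neg_neg]
  rcases comm_pm Z M hzx with hM | ⟨hM, _⟩ <;> rcases comm_pm Z N hzy with hN | ⟨hN, _⟩
  · left
    obtain ⟨α, β, h3⟩ := commutant M.val Z.val nsM hM
    have h4 : (2 * α) • (N * M).val = 0 := by
      rw [h3] at hN
      simp only [add_mul, mul_add, smul_mul_assoc, mul_smul_comm, one_mul, mul_one, hanti,
        smul_neg] at hN
      have h5 : -(α • (N.val * M.val)) = α • (N.val * M.val) := add_right_cancel hN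
      rw [Units.val_mul, two_mul, add_smul]
      nth_rewrite 1 [← h5]
      simp
    have h5 := smul_val_eq_zero _ _ h4
    have hα : α = 0 := (mul_eq_zero.1 h5).resolve_left h2
    rw [hα, zero_smul, zero_add] at h3
    exact mk_one_of_smul Z β h3
  · right; left
    exact key M N Z nsM hanti hM hN
  · right; right; left
    exact key N M Z nsN hanti' hN hM
  · right; right; right
    have h6 : ProjGenLinGroup.mk (Z * M) = ProjGenLinGroup.mk N := by
      apply key N M (Z * M) nsN hanti'
      · rw [Units.val_mul, mul_assoc, hanti, mul_neg, ← mul_assoc, hN, neg_mul, neg_neg, mul_assoc]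
      · rw [Units.val_mul, ← mul_assoc, hM, neg_mul]
    rw [map_mul] at h6
    have h7 : ProjGenLinGroup.mk Z = ProjGenLinGroup.mk N * ProjGenLinGroup.mk M := by
      rw [← h6, mul_assoc, hx2, mul_one]
    rw [h7, hc]

end H361P
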