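import Pool.Agent.H361R3.PGL.ProjEqui
import Pool.Agent.H361R3.PGL.AbsVal

universe u

namespace H361P

open Matrix
open scoped MatrixGroups

variable {F : Type u} [Field F]

/-- The unipotent element `[[1,t],[0,1]]`. -/
noncomputable def uni (t : F) : GL (Fin 2) F :=
  GeneralLinearGroup.mkOfDetNeZero !![1, t; 0, 1] (by simp [Matrix.det_fin_two])

lemma mk_uni_injective : Function.Injective (fun t : F => ProjGenLinGroup.mk (uni t)) := by
  intro s t h
  obtain ⟨u, hu⟩ := ProjGenLinGroup.mk_eq_mk_iff.1 h
  have h00 := congrArg (fun g : GL (Fin 2) F => g 0 0) hu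
  have h01 := congrArg (fun g : GL (Fin 2) F => g 0 1) hu
  simp [uni, GeneralLinearGroup.mkOfDetNeZero, Matrix.mul_apply] at h00 h01
  rw [h00] at h01
  simpa using h01

instance countable_pgl [Countable F] : Countable (PGL(2, F)) := by
  have h1 : Countable (Matrix (Fin 2) (Fin 2) F) :=
    inferInstanceAs (Countable (Fin 2 → Fin 2 → F))
  have h2 : Countable (GL (Fin 2) F) :=
    Function.Injective.countable (f := fun g : GL (Fin 2) F => g.val) (fun a b h => Units.ext h)
  exact ProjGenLinGroup.mk_surjective.countable

instance infinite_pgl [Infinite F] : Infinite (PGL(2, F)) :=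
  Infinite.of_injective _ (mk_uni_injective (F := F))

/-- If the countable infinite field `F` is not algebraic over a finite field, `PGL(2,F)` is
highly transitive. -/
theorem pgl_ht [Countable F] [Infinite F] (h : ¬ AlgebraicOverFiniteField F) :
    IsHighlyTransitiveGroup (PGL(2, F)) := by
  obtain ⟨v, hv⟩ := exists_abs h
  let _ := metricOf v
  let _ : MulAction (PGL(2, F)) _ := actPGL (F := F)
  exact ht_of_pp (pp_pgl v hv)

end H361P
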