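import Pool.Agent.H361R3.PGL.LocFin
import Pool.Agent.H361R3.PGL.PartA

universe u v

namespace H361P

open Matrix Equiv
open scoped MatrixGroups

variable {F : Type u} [Field F]

/-- Sharpness: elements fixing four points are trivial. -/
theorem sharp (hF : AlgebraicOverFiniteField F) {Ω : Type v} [MulAction (PGL(2, F)) Ω]
    (h4 : KTransitive (PGL(2, F)) Ω 4) (a : Fin 4 → Ω) (ha : Function.Injective a)
    (l : PGL(2, F)) (hl : ∀ i, l • a i = a i) : l = 1 := by
  classical
  have hg : ∀ σ : Perm (Fin 4), ∃ g : PGL(2, F), ∀ i, g • a i = a (σ i) := fun σ =>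
    h4.2 a (fun i => a (σ i)) ha (ha.comp σ.injective)
  choose g hg using hg
  let S : Set (PGL(2, F)) := insert l (Set.range g)
  have hSfin : S.Finite := (Set.finite_range g).insert l
  have hfin := closure_finite hF S hSfin
  let H := Subgroup.closure S
  have hperm : ∀ h : H, ∃ σ : Perm (Fin 4), ∀ i, (h : PGL(2, F)) • a i = a (σ i) := by
    rintro ⟨h, hh⟩
    show ∃ σ : Perm (Fin 4), ∀ i, h • a i = a (σ i)
    induction hh using Subgroup.closure_induction with
    | mem x hx =>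
      rcases hx with rfl | ⟨σ, rfl⟩
      · exact ⟨1, fun i => hl i⟩
      · exact ⟨σ, hg σ⟩
    | one => exact ⟨1, fun i => one_smul _ _⟩
    | mul x y _ _ hx hy =>
      obtain ⟨σ, hσ⟩ := hx
      obtain ⟨τ, hτ⟩ := hy
      exact ⟨σ * τ, fun i => by rw [mul_smul, hτ, hσ]; rfl⟩
    | inv x _ hx =>
      obtain ⟨σ, hσ⟩ := hx
      refine ⟨σ⁻¹, fun i => ?_⟩
      rw [inv_smul_eq_iff, hσ]
      congr 1
      show i = (σ * σ⁻¹) i
      rw [mul_inv_cancel]; rfl
  choose s hs using hperm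
  let f : H →* Perm (Fin 4) := MonoidHom.mk' s (by
    intro x y
    ext i
    congr 1
    apply ha
    rw [← hs]
    show ((x : PGL(2, F)) * y) • a i = a (s x (s y i))
    rw [mul_smul, hs, hs])
  have hgH : ∀ σ, g σ ∈ H := fun σ => Subgroup.subset_closure (Or.inr ⟨σ, rfl⟩)
  have hlH : l ∈ H := Subgroup.subset_closure (Or.inl rfl)
  have hf : Function.Surjective f := by
    intro σ
    refine ⟨⟨g σ, hgH σ⟩, ?_⟩
    ext i
    congr 1
    apply ha
    show a (s ⟨g σ, hgH σ⟩ i) = a (σ i)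
    rw [← hs]
    exact hg σ i
  have hinj := inj_of_surj H.subtype (Subgroup.subtype_injective H) f hf
  have h1 : f ⟨l, hlH⟩ = 1 := by
    ext i
    congr 1
    apply ha
    show a (s ⟨l, hlH⟩ i) = a i
    rw [← hs]
    exact hl i
  have h2 : (⟨l, hlH⟩ : H) = 1 := hinj (by rw [h1, map_one])
  exact congrArg Subtype.val h2

/-- Elements with infinitely many fixed points are trivial. -/
lemma sharp_inf (hF : AlgebraicOverFiniteField F) {Ω : Type v} [MulAction (PGL(2, F)) Ω]
    (h4 : KTransitive (PGL(2, F)) Ω 4) (R : Set Ω) (hR : R.Infinite) (l : PGL(2, F))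
    (hl : ∀ x ∈ R, l • x = x) : l = 1 := by
  let e := hR.natEmbedding
  apply sharp hF h4 (fun i : Fin 4 => (e i : Ω))
  · intro i j hij
    exact Fin.ext (e.injective (Subtype.ext hij))
  · intro i
    exact hl _ (e i).2

/-- The index-two piece of the centralizer. -/
def TT (M : GL (Fin 2) F) (g : PGL(2, F)) : Prop :=
  ∃ A : GL (Fin 2) F, ProjGenLinGroup.mk A = g ∧ A.val * M.val = M.val * A.val

lemma TT_comm {M : GL (Fin 2) F} (hM : NS M.val) {g g' : PGL(2, F)} (h : TT M g) (h' : TT M g') :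
    g * g' = g' * g := by
  obtain ⟨A, rfl, hA⟩ := h
  obtain ⟨B, rfl, hB⟩ := h'
  have : A * B = B * A := Units.ext (commute_of_commute M.val _ _ hM hA hB)
  rw [← map_mul, this, map_mul]

lemma TT_same {M : GL (Fin 2) F} {g g' : PGL(2, F)}
    (hg : g * ProjGenLinGroup.mk M = ProjGenLinGroup.mk M * g)
    (hg' : g' * ProjGenLinGroup.mk M = ProjGenLinGroup.mk M * g')
    (hiff : TT M g ↔ TT M g') : TT M (g⁻¹ * g') := by
  obtain ⟨A, rfl⟩ := ProjGenLinGroup.mk_surjective g
  obtain ⟨B, rfl⟩ := ProjGenLinGroup.mk_surjective g'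
  have e1 : (A⁻¹ : GL (Fin 2) F).val * A.val = 1 := by
    rw [← Units.val_mul, inv_mul_cancel, Units.val_one]
  have e2 : A.val * (A⁻¹ : GL (Fin 2) F).val = 1 := by
    rw [← Units.val_mul, mul_inv_cancel, Units.val_one]
  refine ⟨A⁻¹ * B, by rw [map_mul, map_inv], ?_⟩
  -- the sign of a lift
  have hplus : ∀ A B : GL (Fin 2) F, A.val * M.val = M.val * A.val →
      B.val * M.val = M.val * B.val → (A⁻¹ * B).val * M.val = M.val * (A⁻¹ * B).val := by
    intro A B hA hB
    have e1 : (A⁻¹ : GL (Fin 2) F).val * A.val = 1 := by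
      rw [← Units.val_mul, inv_mul_cancel, Units.val_one]
    have e2 : A.val * (A⁻¹ : GL (Fin 2) F).val = 1 := by
      rw [← Units.val_mul, mul_inv_cancel, Units.val_one]
    have h1 : (A⁻¹ : GL (Fin 2) F).val * M.val = M.val * (A⁻¹ : GL (Fin 2) F).val := by
      have : (A⁻¹ : GL (Fin 2) F).val * (A.val * M.val) * (A⁻¹ : GL (Fin 2) F).val =
          (A⁻¹ : GL (Fin 2) F).val * (M.val * A.val) * (A⁻¹ : GL (Fin 2) F).val := by rw [hA]
      rw [← mul_assoc, e1, one_mul, mul_assoc, mul_assoc, e2, mul_one] at this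
      exact this.symm
    rw [Units.val_mul, mul_assoc, hB, ← mul_assoc, h1, mul_assoc]
  have hminus : A.val * M.val = -(M.val * A.val) → B.val * M.val = -(M.val * B.val) →
      (A⁻¹ * B).val * M.val = M.val * (A⁻¹ * B).val := by
    intro hA hB
    have h1 : (A⁻¹ : GL (Fin 2) F).val * M.val = -(M.val * (A⁻¹ : GL (Fin 2) F).val) := by
      have : (A⁻¹ : GL (Fin 2) F).val * (A.val * M.val) * (A⁻¹ : GL (Fin 2) F).val =
          (A⁻¹ : GL (Fin 2) F).val * (-(M.val * A.val)) * (A⁻¹ : GL (Fin 2) F).val := by rw [hA]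
      rw [← mul_assoc, e1, one_mul, mul_neg, neg_mul, mul_assoc, mul_assoc, e2, mul_one] at this
      rw [this, neg_neg]
    rw [Units.val_mul, mul_assoc, hB, mul_neg, ← mul_assoc, h1, neg_mul, neg_neg, mul_assoc]
  rcases comm_pm A M hg with hA | ⟨hA, hA2⟩ <;> rcases comm_pm B M hg' with hB | ⟨hB, hB2⟩
  · exact hplus A B hA hB
  · obtain ⟨B', hB'1, hB'2⟩ := hiff.1 ⟨A, rfl, hA⟩
    obtain ⟨u, hu⟩ := ProjGenLinGroup.mk_eq_mk_iff.1 hB'1
    have hB3 : B.val * M.val = M.val * B.val := by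
      have h5 : B.val = (u : F) • B'.val := by
        rw [← hu, Units.val_mul]
        ext i j
        fin_cases i <;> fin_cases j <;> simp [Matrix.mul_apply] <;> ring
      rw [h5, smul_mul_assoc, hB'2, mul_smul_comm]
    exact hplus A B hA hB3
  · obtain ⟨A', hA'1, hA'2⟩ := hiff.2 ⟨B, rfl, hB⟩
    obtain ⟨u, hu⟩ := ProjGenLinGroup.mk_eq_mk_iff.1 hA'1
    have hA3 : A.val * M.val = M.val * A.val := by
      have h5 : A.val = (u : F) • A'.val := by
        rw [← hu, Units.val_mul]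
        ext i j
        fin_cases i <;> fin_cases j <;> simp [Matrix.mul_apply] <;> ring
      rw [h5, smul_mul_assoc, hA'2, mul_smul_comm]
    exact hplus A B hA3 hB
  · exact hminus hA hB

/-- `PGL(2,F)` has no faithful `4`-transitive action if `F` is infinite and algebraic over a
finite field. -/
theorem no_four (hF : AlgebraicOverFiniteField F) [Infinite F] {Ω : Type v}
    [MulAction (PGL(2, F)) Ω] [FaithfulSMul (PGL(2, F)) Ω]
    (h4 : KTransitive (PGL(2, F)) Ω 4) : False := by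
  classical
  have hinfΩ : Infinite Ω := by
    by_contra hfin
    rw [not_infinite_iff_finite] at hfin
    have : Finite (PGL(2, F)) :=
      Finite.of_injective (MulAction.toPermHom (PGL(2, F)) Ω) MulAction.toPerm_injective
    exact not_finite (PGL(2, F))
  obtain ⟨a, ha⟩ := h4.1
  obtain ⟨t, ht⟩ := h4.2 a (fun i => a ((swap 0 1 * swap 2 3 : Perm (Fin 4)) i)) ha
    (ha.comp (Equiv.injective _))
  have ht0 : t • a 0 = a 1 := by rw [ht]; congr 1
  have ht1 : t • a 1 = a 0 := by rw [ht]; congr 1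
  have ht2 : t • a 2 = a 3 := by rw [ht]; congr 1
  have ht3 : t • a 3 = a 2 := by rw [ht]; congr 1
  have htt : t * t = 1 := by
    apply sharp hF h4 a ha
    intro i
    rw [mul_smul]
    fin_cases i
    · show t • t • a 0 = a 0; rw [ht0, ht1]
    · show t • t • a 1 = a 1; rw [ht1, ht0]
    · show t • t • a 2 = a 2; rw [ht2, ht3]
    · show t • t • a 3 = a 3; rw [ht3, ht2]
  have htt' : ∀ x : Ω, t • t • x = x := fun x => by rw [← mul_smul, htt, one_smul]
  have ht_ne : t ≠ 1 := by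
    intro h
    rw [h, one_smul] at ht0
    have := ha ht0
    exact absurd this (by decide)
  have htinv : t⁻¹ = t := inv_eq_of_mul_eq_one_right htt
  obtain ⟨M, hM⟩ := ProjGenLinGroup.mk_surjective t
  have nsM : NS M.val := ns_of_mk_ne M (by rw [hM]; exact ht_ne)
  -- transitivity of the centralizer on pairs
  have trans : ∀ b b' c c' : Ω, t • b ≠ b → b' ≠ b → b' ≠ t • b → t • b' ≠ b' →
      t • c ≠ c → c' ≠ c → c' ≠ t • c → t • c' ≠ c' →
      ∃ g : PGL(2, F), g * t = t * g ∧ g • b = c ∧ g • b' = c' := by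
    have inj4 : ∀ b b' : Ω, t • b ≠ b → b' ≠ b → b' ≠ t • b → t • b' ≠ b' →
        Function.Injective ![b, t • b, b', t • b'] := by
      intro b b' h1 h2 h3 h4'
      have h5 : t • b' ≠ b := by
        intro h; apply h3; rw [← h, htt']
      have h6 : t • b' ≠ t • b := by
        intro h; apply h2; exact smul_left_cancel t h
      intro i j hij
      fin_cases i <;> fin_cases j <;> simp at hij ⊢
      · exact h1 hij.symm
      · exact h2 hij.symm
      · exact h5 hij.symm
      · exact h1 hij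
      · exact h3 hij.symm
      · exact h2 hij.symm
      · exact h2 hij
      · exact h3 hij
      · exact h4' hij.symm
      · exact h5 hij
      · exact h2 hij
      · exact h4' hij
    intro b b' c c' h1 h2 h3 h4' k1 k2 k3 k4
    obtain ⟨g, hg⟩ := h4.2 _ _ (inj4 b b' h1 h2 h3 h4') (inj4 c c' k1 k2 k3 k4)
    have g0 : g • b = c := by simpa using hg 0
    have g1 : g • t • b = t • c := by simpa using hg 1
    have g2 : g • b' = c' := by simpa using hg 2
    have g3 : g • t • b' = t • c' := by simpa using hg 3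
    refine ⟨g, ?_, g0, g2⟩
    have hone : g * t * g⁻¹ * t = 1 := by
      apply sharp hF h4 _ (inj4 c c' k1 k2 k3 k4)
      have i0 : g⁻¹ • c = b := by rw [inv_smul_eq_iff, g0]
      have i1 : g⁻¹ • t • c = t • b := by rw [inv_smul_eq_iff, g1]
      have i2 : g⁻¹ • c' = b' := by rw [inv_smul_eq_iff, g2]
      have i3 : g⁻¹ • t • c' = t • b' := by rw [inv_smul_eq_iff, g3]
      intro i
      rw [mul_smul, mul_smul, mul_smul]
      fin_cases i
      · show g • t • g⁻¹ • t • c = c
        rw [i1, htt', g0]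
      · show g • t • g⁻¹ • t • t • c = t • c
        rw [htt', i0, g1]
      · show g • t • g⁻¹ • t • c' = c'
        rw [i3, htt', g2]
      · show g • t • g⁻¹ • t • t • c' = t • c'
        rw [htt', i2, g3]
    have h5 : g * t * g⁻¹ = t := by
      have := eq_inv_of_mul_eq_one_left hone
      rw [this, htinv]
    exact mul_inv_eq_iff_eq_mul.1 h5
  -- the moved points
  have hfix : {x : Ω | t • x = x}.Finite := by
    by_contra hinf
    exact ht_ne (sharp_inf hF h4 _ hinf t (fun x hx => hx))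
  have hmov : {x : Ω | t • x ≠ x}.Infinite := by
    have h1 := hfix.infinite_compl
    exact h1
  have hmov' : ∀ b : Ω, ({x : Ω | t • x ≠ x} \ {b, t • b}).Infinite := fun b =>
    hmov.diff (Set.toFinite _)
  obtain ⟨b, hb⟩ := hmov.nonempty
  have hb : t • b ≠ b := hb
  -- choose for each c in the moved set an element
  have hS := hmov' b
  obtain ⟨b', hb'⟩ := hS.nonempty
  have hb'1 : t • b' ≠ b' := hb'.1
  have hb'2 : b' ≠ b := fun h => hb'.2 (Or.inl h)
  have hb'3 : b' ≠ t • b := fun h => hb'.2 (Or.inr h)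
  -- two elements with the same type
  have pig : ∀ (R : Set Ω), R.Infinite → ∀ P : Ω → Prop, ∃ R' ⊆ R, R'.Infinite ∧
      ∀ x ∈ R', ∀ y ∈ R', (P x ↔ P y) := by
    intro R hR P
    by_cases h : (R ∩ {x | P x}).Infinite
    · exact ⟨_, Set.inter_subset_left, h, fun x hx y hy => ⟨fun _ => hy.2, fun _ => hx.2⟩⟩
    · have h2 : (R \ {x | P x}).Infinite := by
        rw [Set.not_infinite] at h
        have := hR.diff h
        refine this.mono ?_
        intro x hx
        exact ⟨hx.1, fun hp => hx.2 ⟨hx.1, hp⟩⟩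
      exact ⟨_, Set.diff_subset, h2, fun x hx y hy => ⟨fun hp => absurd hp hx.2,
        fun hp => absurd hp hy.2⟩⟩
  -- first: a nontrivial element of TT fixing b
  have hg1 : ∀ c' ∈ ({x : Ω | t • x ≠ x} \ {b, t • b}), ∃ g : PGL(2, F),
      g * t = t * g ∧ g • b = b ∧ g • b' = c' := by
    intro c' hc'
    exact trans b b' b c' hb hb'2 hb'3 hb'1 hb (fun h => hc'.2 (Or.inl h))
      (fun h => hc'.2 (Or.inr h)) hc'.1
  choose! g hgc hgb hgb' using hg1
  obtain ⟨R, hRS, hRinf, hRP⟩ := pig _ hS (fun c => TT M (g c))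
  obtain ⟨c1, hc1⟩ := hRinf.nonempty
  obtain ⟨c2, hc2⟩ := (hRinf.diff (Set.finite_singleton c1)).nonempty
  have hc12 : c2 ≠ c1 := fun h => hc2.2 h
  set h := (g c1)⁻¹ * g c2 with hh
  have hTTh : TT M h := TT_same (by rw [hM]; exact hgc c1 (hRS hc1))
    (by rw [hM]; exact hgc c2 (hRS hc2.1)) (hRP c1 hc1 c2 hc2.1)
  have hhb : h • b = b := by
    rw [hh, mul_smul, hgb c2 (hRS hc2.1), inv_smul_eq_iff, hgb c1 (hRS hc1)]
  have hh1 : h ≠ 1 := by
    intro h1
    apply hc12
    rw [← hgb' c1 (hRS hc1), ← hgb' c2 (hRS hc2.1)]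
    rw [hh, inv_mul_eq_one] at h1
    rw [h1]
  -- second: infinitely many points fixed by h
  have hg2 : ∀ c ∈ {x : Ω | t • x ≠ x}, ∃ k : PGL(2, F), k * t = t * k ∧ k • b = c := by
    intro c hc
    obtain ⟨c', hc'⟩ := (hmov' c).nonempty
    obtain ⟨k, hk1, hk2, _⟩ := trans b b' c c' hb hb'2 hb'3 hb'1 hc
      (fun h => hc'.2 (Or.inl h)) (fun h => hc'.2 (Or.inr h)) hc'.1
    exact ⟨k, hk1, hk2⟩
  choose! k hkc hkb using hg2
  obtain ⟨R2, hR2S, hR2inf, hR2P⟩ := pig _ hmov (fun c => TT M (k c))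
  obtain ⟨c0, hc0⟩ := hR2inf.nonempty
  apply hh1
  apply sharp_inf hF h4 ((fun x => (k c0)⁻¹ • x) '' R2)
    (hR2inf.image (fun x _ y _ hxy => smul_left_cancel _ hxy))
  rintro _ ⟨c, hc, rfl⟩
  show h • (k c0)⁻¹ • c = (k c0)⁻¹ • c
  have h1 : TT M ((k c0)⁻¹ * k c) := TT_same (by rw [hM]; exact hkc c0 (hR2S hc0))
    (by rw [hM]; exact hkc c (hR2S hc)) (hR2P c0 hc0 c hc)
  have h2 : (k c0)⁻¹ • c = ((k c0)⁻¹ * k c) • b := by
    rw [mul_smul, hkb c (hR2S hc)]
  rw [h2, ← mul_smul, TT_comm nsM hTTh h1, mul_smul, hhb]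

end H361P
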