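import Pool.Agent.H361R3.PGL.Coset

universe u

namespace H361P

open Set Matrix
open scoped LinearAlgebra.Projectivization MatrixGroups

variable {F : Type u} [Field F]

/-- Sup norm on `F²`. -/
noncomputable def nn (v : AbsoluteValue F ℝ) (x : Fin 2 → F) : ℝ := max (v (x 0)) (v (x 1))

/-- Wedge. -/
def wd (x y : Fin 2 → F) : F := x 0 * y 1 - x 1 * y 0

/-- Chordal distance of vectors. -/
noncomputable def dd (v : AbsoluteValue F ℝ) (x y : Fin 2 → F) : ℝ :=
  v (wd x y) / (nn v x * nn v y)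

variable (v : AbsoluteValue F ℝ)

lemma nn_nonneg (x : Fin 2 → F) : 0 ≤ nn v x := le_max_of_le_left (v.nonneg _)

lemma le_nn0 (x : Fin 2 → F) : v (x 0) ≤ nn v x := le_max_left _ _
lemma le_nn1 (x : Fin 2 → F) : v (x 1) ≤ nn v x := le_max_right _ _

lemma nn_pos {x : Fin 2 → F} (hx : x ≠ 0) : 0 < nn v x := by
  by_contra h
  have h0 : v (x 0) ≤ 0 := (le_nn0 v x).trans (not_lt.1 h)
  have h1 : v (x 1) ≤ 0 := (le_nn1 v x).trans (not_lt.1 h)
  have h0' : x 0 = 0 := v.eq_zero.1 (le_antisymm h0 (v.nonneg _))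
  have h1' : x 1 = 0 := v.eq_zero.1 (le_antisymm h1 (v.nonneg _))
  apply hx
  funext i
  fin_cases i
  · exact h0'
  · exact h1'

lemma nn_smul (a : F) (x : Fin 2 → F) : nn v (a • x) = v a * nn v x := by
  simp only [nn, Pi.smul_apply, smul_eq_mul, map_mul]
  rw [mul_max_of_nonneg _ _ (v.nonneg a)]

lemma nn_add (x y : Fin 2 → F) : nn v (x + y) ≤ nn v x + nn v y := by
  apply max_le
  · exact (v.add_le _ _).trans (add_le_add (le_nn0 v x) (le_nn0 v y))
  · exact (v.add_le _ _).trans (add_le_add (le_nn1 v x) (le_nn1 v y))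

lemma plucker (x y z : Fin 2 → F) : wd x z • y = wd y z • x + wd x y • z := by
  funext i
  fin_cases i <;> simp [wd] <;> ring

lemma dd_smul_left {a : F} (ha : a ≠ 0) (x y : Fin 2 → F) : dd v (a • x) y = dd v x y := by
  have h1 : wd (a • x) y = a * wd x y := by simp [wd]; ring
  have h2 : v a ≠ 0 := v.ne_zero ha
  rw [dd, dd, h1, nn_smul, map_mul, mul_assoc, mul_div_mul_left _ _ h2]

lemma dd_comm (x y : Fin 2 → F) : dd v x y = dd v y x := by
  have : wd x y = - wd y x := by simp [wd]; ring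
  rw [dd, dd, this, v.map_neg, mul_comm (nn v x)]

lemma dd_smul_right {a : F} (ha : a ≠ 0) (x y : Fin 2 → F) : dd v x (a • y) = dd v x y := by
  rw [dd_comm, dd_smul_left v ha, dd_comm]

lemma dd_triangle {x y z : Fin 2 → F} (hx : x ≠ 0) (hy : y ≠ 0) (hz : z ≠ 0) :
    dd v x z ≤ dd v x y + dd v y z := by
  have h1 : v (wd x z) * nn v y ≤ v (wd y z) * nn v x + v (wd x y) * nn v z := by
    rw [← nn_smul, ← nn_smul, ← nn_smul, plucker]
    exact nn_add v _ _
  have px := nn_pos v hx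
  have py := nn_pos v hy
  have pz := nn_pos v hz
  rw [dd, dd, dd, div_add_div _ _ (by positivity) (by positivity), div_le_div_iff₀ (by positivity)
    (by positivity)]
  nlinarith [mul_le_mul_of_nonneg_left h1 (show 0 ≤ nn v x * nn v z * nn v y by positivity)]

lemma dd_nonneg (x y : Fin 2 → F) : 0 ≤ dd v x y :=
  div_nonneg (v.nonneg _) (mul_nonneg (nn_nonneg v _) (nn_nonneg v _))

lemma dd_le_two {x y : Fin 2 → F} (hx : x ≠ 0) (hy : y ≠ 0) : dd v x y ≤ 2 := by
  have px := nn_pos v hx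
  have py := nn_pos v hy
  rw [dd, div_le_iff₀ (by positivity)]
  have h1 : v (wd x y) ≤ v (x 0) * v (y 1) + v (x 1) * v (y 0) := by
    have := v.sub_le (x 0 * y 1) 0 (x 1 * y 0)
    simp only [sub_zero, zero_sub, v.map_neg, map_mul] at this
    exact this
  have h2 : v (x 0) * v (y 1) ≤ nn v x * nn v y :=
    mul_le_mul (le_nn0 v x) (le_nn1 v y) (v.nonneg _) (nn_nonneg v _)
  have h3 : v (x 1) * v (y 0) ≤ nn v x * nn v y :=
    mul_le_mul (le_nn1 v x) (le_nn0 v y) (v.nonneg _) (nn_nonneg v _)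
  linarith

/-- Distance on the projective line. -/
noncomputable def pd (p q : ℙ F (Fin 2 → F)) : ℝ := dd v p.rep q.rep

lemma pd_mk (x y : Fin 2 → F) (hx : x ≠ 0) (hy : y ≠ 0) :
    pd v (Projectivization.mk F x hx) (Projectivization.mk F y hy) = dd v x y := by
  obtain ⟨a, ha⟩ := Projectivization.exists_smul_eq_mk_rep F x hx
  obtain ⟨b, hb⟩ := Projectivization.exists_smul_eq_mk_rep F y hy
  rw [pd, ← ha, ← hb]
  show dd v ((a : F) • x) ((b : F) • y) = _
  rw [dd_smul_left v a.ne_zero, dd_smul_right v b.ne_zero]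

lemma mk_eq_of_wd {x y : Fin 2 → F} (hx : x ≠ 0) (hy : y ≠ 0) (h : wd x y = 0) :
    Projectivization.mk F x hx = Projectivization.mk F y hy := by
  rw [Projectivization.mk_eq_mk_iff']
  have h' : x 0 * y 1 = x 1 * y 0 := sub_eq_zero.1 h
  by_cases h0 : y 0 = 0
  · have h1 : y 1 ≠ 0 := by
      intro h1; apply hy; funext i; fin_cases i
      · exact h0
      · exact h1
    have hx0 : x 0 = 0 := by
      rw [h0, mul_zero] at h'
      rcases mul_eq_zero.1 h' with h2 | h2
      · exact h2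
      · exact absurd h2 h1
    refine ⟨x 1 / y 1, ?_⟩
    funext i
    fin_cases i
    · simp [h0, hx0]
    · simp [h1]
  · refine ⟨x 0 / y 0, ?_⟩
    funext i
    fin_cases i
    · simp [h0]
    · simp only [Fin.mk_one, Pi.smul_apply, smul_eq_mul]
      field_simp
      rw [h', mul_comm]

lemma wd_of_mk_eq {x y : Fin 2 → F} (hx : x ≠ 0) (hy : y ≠ 0)
    (h : Projectivization.mk F x hx = Projectivization.mk F y hy) : wd x y = 0 := by
  rw [Projectivization.mk_eq_mk_iff'] at h
  obtain ⟨a, rfl⟩ := h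
  simp [wd]; ring

/-- The chordal metric. -/
@[reducible] noncomputable def metricOf : MetricSpace (ℙ F (Fin 2 → F)) where
  dist p q := pd v p q
  dist_self p := by
    show dd v p.rep p.rep = 0
    simp [dd, wd, mul_comm]
  dist_comm p q := dd_comm v _ _
  dist_triangle p q r := dd_triangle v p.rep_nonzero q.rep_nonzero r.rep_nonzero
  eq_of_dist_eq_zero := by
    intro p q h
    have h' : dd v p.rep q.rep = 0 := h
    have h1 := nn_pos v p.rep_nonzero
    have h2 := nn_pos v q.rep_nonzero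
    have h3 : v (wd p.rep q.rep) = 0 := by
      rw [dd, div_eq_zero_iff] at h'
      rcases h' with h' | h'
      · exact h'
      · exact absurd h' (by positivity)
    rw [← p.mk_rep, ← q.mk_rep]
    exact mk_eq_of_wd p.rep_nonzero q.rep_nonzero (v.eq_zero.1 h3)

lemma scalar_smul (u : Fˣ) (p : ℙ F (Fin 2 → F)) :
    (GeneralLinearGroup.scalar (Fin 2) u) • p = p := by
  induction p using Projectivization.ind with
  | h w hw =>
    rw [Projectivization.smul_mk, Projectivization.mk_eq_mk_iff']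
    refine ⟨(u : F), ?_⟩
    funext i
    fin_cases i <;> simp

/-- The action of `PGL(2,F)` on the projective line. -/
@[reducible] noncomputable def actPGL : MulAction (PGL(2, F)) (ℙ F (Fin 2 → F)) :=
  ProjGenLinGroup.mulActionOfGL (fun u a => scalar_smul u a)

lemma wd_smul (g : GL (Fin 2) F) (x y : Fin 2 → F) :
    wd (g • x) (g • y) = g.val.det * wd x y := by
  simp [wd, Matrix.det_fin_two]; ring

/-- operator size -/
noncomputable def KK (g : GL (Fin 2) F) : ℝ := v (g 0 0) + v (g 0 1) + v (g 1 0) + v (g 1 1)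

lemma nn_gsmul_le (g : GL (Fin 2) F) (x : Fin 2 → F) : nn v (g • x) ≤ KK v g * nn v x := by
  have h00 := v.nonneg (g 0 0)
  have h01 := v.nonneg (g 0 1)
  have h10 := v.nonneg (g 1 0)
  have h11 := v.nonneg (g 1 1)
  have hx0 := le_nn0 v x
  have hx1 := le_nn1 v x
  have hn := nn_nonneg v x
  apply max_le
  · simp only [Matrix.GeneralLinearGroup.fin_two_smul, Matrix.cons_val_zero]
    refine (v.add_le _ _).trans ?_
    rw [map_mul, map_mul, KK]
    nlinarith [mul_le_mul_of_nonneg_left hx0 h00, mul_le_mul_of_nonneg_left hx1 h01,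
      mul_nonneg h10 hn, mul_nonneg h11 hn]
  · simp only [Matrix.GeneralLinearGroup.fin_two_smul, Matrix.cons_val_one, Matrix.cons_val_zero]
    refine (v.add_le _ _).trans ?_
    rw [map_mul, map_mul, KK]
    nlinarith [mul_le_mul_of_nonneg_left hx0 h10, mul_le_mul_of_nonneg_left hx1 h11,
      mul_nonneg h00 hn, mul_nonneg h01 hn]

lemma smul_ne {g : GL (Fin 2) F} {x : Fin 2 → F} (hx : x ≠ 0) : g • x ≠ 0 :=
  (smul_ne_zero_iff_ne g).2 hx

lemma le_nn_gsmul (g : GL (Fin 2) F) (x : Fin 2 → F) : nn v x ≤ KK v g⁻¹ * nn v (g • x) := by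
  have := nn_gsmul_le v g⁻¹ (g • x)
  rwa [inv_smul_smul] at this

/-- Lipschitz estimate for vectors. -/
lemma dd_gsmul_le (g : GL (Fin 2) F) {x y : Fin 2 → F} (hx : x ≠ 0) (hy : y ≠ 0) :
    dd v (g • x) (g • y) ≤ (v g.val.det * KK v g⁻¹ ^ 2) * dd v x y := by
  have hx' : g • x ≠ 0 := smul_ne hx
  have hy' : g • y ≠ 0 := smul_ne hy
  have p1 := nn_pos v hx
  have p2 := nn_pos v hy
  have p3 := nn_pos v hx'
  have p4 := nn_pos v hy'
  have q1 := le_nn_gsmul v g x
  have q2 := le_nn_gsmul v g y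
  have hK : 0 ≤ KK v g⁻¹ := by
    unfold KK
    have := v.nonneg (g⁻¹ 0 0)
    have := v.nonneg (g⁻¹ 0 1)
    have := v.nonneg (g⁻¹ 1 0)
    have := v.nonneg (g⁻¹ 1 1)
    positivity
  have q3 : nn v x * nn v y ≤ KK v g⁻¹ ^ 2 * (nn v (g • x) * nn v (g • y)) := by
    calc nn v x * nn v y ≤ (KK v g⁻¹ * nn v (g • x)) * (KK v g⁻¹ * nn v (g • y)) :=
          mul_le_mul q1 q2 p2.le (mul_nonneg hK p3.le)
      _ = _ := by ring
  rw [dd, dd, wd_smul, map_mul, div_le_iff₀ (by positivity)]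
  have hw := v.nonneg (wd x y)
  have hd := v.nonneg g.val.det
  have : v g.val.det * KK v g⁻¹ ^ 2 * (v (wd x y) / (nn v x * nn v y)) *
      (nn v (g • x) * nn v (g • y)) =
      v g.val.det * v (wd x y) * ((KK v g⁻¹ ^ 2 * (nn v (g • x) * nn v (g • y))) /
        (nn v x * nn v y)) := by
    field_simp
  rw [this]
  apply le_mul_of_one_le_right (mul_nonneg hd hw)
  rw [one_le_div (by positivity)]
  exact q3

end H361P
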