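import Pool.Agent.H361R3.PGL.ProjMain

universe u

namespace H361P

open Set Matrix
open scoped LinearAlgebra.Projectivization MatrixGroups

variable {F : Type u} [Field F] (v : AbsoluteValue F ℝ)

lemma wd_10 (x : Fin 2 → F) : wd x ![1, 0] = - x 1 := by simp [wd]

lemma dd_10 (x : Fin 2 → F) : dd v x ![1, 0] = v (x 1) / nn v x := by
  rw [dd, wd_10, v.map_neg, nn_1t v (by simp), mul_one]

lemma equi_core (m : GL (Fin 2) F) (r : ℝ) (hr : 0 < r) (hr1 : r ≤ 1) (t0 : F) (ht0 : t0 ≠ 0)
    (ht0r : v t0 < r)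
    (hm : ∀ z : ℙ F (Fin 2 → F), pd v z (pt 0) < r → ¬ pd v (m • z) (pt 0) < r)
    (z w : ℙ F (Fin 2 → F)) (hz : pd v z (pt 0) < r / 2) (hw : pd v w (pt 0) < r / 2) :
    pd v (m • z) (m • w) ≤ (4 * (1 / r ^ 2 + 3 / (r * v t0))) * pd v z w := by
  have hvt0 : 0 < v t0 := v.pos ht0
  have s1 : ∀ t : F, v t < r → r * nn v (m • ![1, t]) ≤ v (m 1 0 + m 1 1 * t) := by
    intro t ht
    have h1 : pd v (pt t) (pt 0) < r := by
      rw [pt, pt, pd_mk, dd_1t v (ht.le.trans hr1)]; exact ht
    have h2 := not_lt.1 (hm _ h1)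
    rw [pt, pt, Projectivization.smul_mk, pd_mk, dd_10, le_div_iff₀
      (nn_pos v (smul_ne (v10 t)))] at h2
    have h3 : (m • ![1, t] : Fin 2 → F) 1 = m 1 0 + m 1 1 * t := by simp
    rw [h3] at h2
    exact h2
  have s1' : ∀ t : F, v t < r → m 1 0 + m 1 1 * t ≠ 0 := by
    intro t ht h0
    have := s1 t ht
    rw [h0, map_zero] at this
    have h1 := nn_pos v (smul_ne (g := m) (v10 t))
    have : 0 < r * nn v (m • ![1, t]) := by positivity
    linarith
  have s1'' : ∀ t : F, v t < r → r * v (m 0 0 + m 0 1 * t) ≤ v (m 1 0 + m 1 1 * t) := by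
    intro t ht
    refine le_trans ?_ (s1 t ht)
    apply mul_le_mul_of_nonneg_left _ hr.le
    have := le_nn0 v (m • ![1, t])
    simpa using this
  set a := m 0 0 with ha
  set b := m 0 1 with hb
  set c := m 1 0 with hc
  set d := m 1 1 with hd
  have hvc : 0 < v c := by
    have := s1' 0 (by rw [map_zero]; exact hr)
    rw [mul_zero, add_zero] at this
    exact v.pos this
  have s2 : r * v d ≤ v c := by
    by_cases hd0 : d = 0
    · rw [hd0, map_zero, mul_zero]; exact hvc.le
    · have hvd : 0 < v d := v.pos hd0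
      have h1 : ¬ v (-c / d) < r := by
        intro h
        apply s1' _ h
        field_simp
        ring
      have h2 := not_lt.1 h1
      rw [map_div₀, v.map_neg, le_div_iff₀ hvd] at h2
      exact h2
  have s3 : r * v a ≤ v c := by
    have := s1'' 0 (by rw [map_zero]; exact hr)
    simpa using this
  have s4 : r * (v b * v t0) ≤ 3 * v c := by
    have h1 : v (b * t0) ≤ v (a + b * t0) + v a := by
      have := v.sub_le (a + b * t0) 0 a
      simp only [sub_zero, zero_sub, v.map_neg] at this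
      have e : b * t0 = (a + b * t0) - a := by ring
      rw [e]; 
      simpa using this
    rw [map_mul] at h1
    have h2 := s1'' t0 ht0r
    have h3 : v (c + d * t0) ≤ v c + v d * v t0 := by
      have := v.add_le c (d * t0)
      rwa [map_mul] at this
    have h4 : v d * v t0 ≤ v c := by
      calc v d * v t0 ≤ v d * r := mul_le_mul_of_nonneg_left ht0r.le (v.nonneg _)
        _ = r * v d := by ring
        _ ≤ v c := s2
    nlinarith [mul_le_mul_of_nonneg_left h1 hr.le]
  have s5 : v m.val.det ≤ (1 / r ^ 2 + 3 / (r * v t0)) * v c ^ 2 := by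
    have h1 : v m.val.det ≤ v a * v d + v b * v c := by
      rw [Matrix.det_fin_two]
      have := v.sub_le (a * d) 0 (b * c)
      simp only [sub_zero, zero_sub, v.map_neg, map_mul] at this
      exact this
    have ha' : v a ≤ v c / r := by rw [le_div_iff₀ hr]; linarith
    have hd' : v d ≤ v c / r := by rw [le_div_iff₀ hr]; linarith
    have hb' : v b ≤ 3 * v c / (r * v t0) := by
      rw [le_div_iff₀ (by positivity)]
      calc v b * (r * v t0) = r * (v b * v t0) := by ring
        _ ≤ _ := s4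
    calc v m.val.det ≤ v a * v d + v b * v c := h1
      _ ≤ (v c / r) * (v c / r) + (3 * v c / (r * v t0)) * v c :=
          add_le_add (mul_le_mul ha' hd' (v.nonneg _) (by positivity))
            (mul_le_mul_of_nonneg_right hb' hvc.le)
      _ = _ := by field_simp
  have s6 : ∀ x : Fin 2 → F, x ≠ 0 → dd v x ![1, 0] < r / 2 → v c * nn v x / 2 ≤ nn v (m • x) := by
    intro x hx hxr
    have px := nn_pos v hx
    rw [dd_10, div_lt_iff₀ px] at hxr
    have hx0 : nn v x = v (x 0) := by
      rw [nn]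
      apply max_eq_left
      by_contra h
      have h' : nn v x = v (x 1) := by rw [nn]; exact max_eq_right (not_le.1 h).le
      rw [h'] at hxr px
      nlinarith
    have h1 : v (c * x 0) ≤ v (c * x 0 + d * x 1) + v (d * x 1) := by
      have := v.sub_le (c * x 0 + d * x 1) 0 (d * x 1)
      simpa using this
    have h2 : v (c * x 0 + d * x 1) ≤ nn v (m • x) := by
      have := le_nn1 v (m • x)
      simpa using this
    rw [map_mul, map_mul, ← hx0] at h1
    have h3 : v d * v (x 1) ≤ v c * nn v x / 2 := by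
      calc v d * v (x 1) ≤ v d * (r / 2 * nn v x) :=
            mul_le_mul_of_nonneg_left hxr.le (v.nonneg _)
        _ = (r * v d) * nn v x / 2 := by ring
        _ ≤ v c * nn v x / 2 := by
            have := mul_le_mul_of_nonneg_right s2 px.le
            linarith
    linarith
  induction z using Projectivization.ind with
  | h z hz0 =>
    induction w using Projectivization.ind with
    | h w hw0 =>
      rw [pt, pd_mk] at hz hw
      rw [Projectivization.smul_mk, Projectivization.smul_mk, pd_mk, pd_mk]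
      have k1 := s6 z hz0 hz
      have k2 := s6 w hw0 hw
      have pz := nn_pos v hz0
      have pw := nn_pos v hw0
      have p1 : 0 < v c * nn v z / 2 := by positivity
      have p2 : 0 < v c * nn v w / 2 := by positivity
      rw [dd, wd_smul, map_mul, dd]
      calc v m.val.det * v (wd z w) / (nn v (m • z) * nn v (m • w))
          ≤ (((1 / r ^ 2 + 3 / (r * v t0)) * v c ^ 2) * v (wd z w)) /
            ((v c * nn v z / 2) * (v c * nn v w / 2)) := by
            apply div_le_div₀ (by positivity)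
              (mul_le_mul_of_nonneg_right s5 (v.nonneg _)) (by positivity)
            exact mul_le_mul k1 k2 p2.le (p1.le.trans k1)
        _ = _ := by field_simp; ring

theorem equi_pgl (hv : ∃ x : F, x ≠ 0 ∧ v x < 1) (V : Set (ℙ F (Fin 2 → F)))
    (hV : @IsOpen _ (metricOf v).toUniformSpace.toTopologicalSpace V) (hVn : V.Nonempty) :
    ∃ V' ⊆ V, @IsOpen _ (metricOf v).toUniformSpace.toTopologicalSpace V' ∧ V'.Nonempty ∧
      ∃ C : ℝ, 0 < C ∧ ∀ g : GL (Fin 2) F, (∀ x ∈ V, g • x ∉ V) →
        ∀ x ∈ V', ∀ y ∈ V', pd v (g • x) (g • y) ≤ C * pd v x y := by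
  obtain ⟨p, hp⟩ := hVn
  obtain ⟨g0, r, hr, hr1, hgp, hball⟩ := chart v V hV p hp
  obtain ⟨t0, ht0, ht0r⟩ := exists_small v hv r hr
  have hL1 := LC_pos v g0
  have hL2 := LC_pos v g0⁻¹
  have hvt0 := v.pos ht0
  refine ⟨{x | pd v (g0⁻¹ • x) (pt 0) < r / 2}, ?_, ?_, ?_,
    LC v g0 * ((4 * (1 / r ^ 2 + 3 / (r * v t0))) * LC v g0⁻¹), by positivity, ?_⟩
  · intro x hx
    have := hball (g0⁻¹ • x) (lt_of_lt_of_le hx (by linarith))
    rwa [smul_inv_smul] at this
  · let M : MetricSpace (ℙ F (Fin 2 → F)) := metricOf v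
    have hcont : Continuous (fun x : ℙ F (Fin 2 → F) => g0⁻¹ • x) := by
      have : LipschitzWith ⟨LC v g0⁻¹, hL2.le⟩ (fun x : ℙ F (Fin 2 → F) => g0⁻¹ • x) := by
        apply LipschitzWith.of_dist_le_mul
        intro x y
        exact pd_LC v g0⁻¹ x y
      exact this.continuous
    have h2 : IsOpen ((fun x : ℙ F (Fin 2 → F) => g0⁻¹ • x) ⁻¹' Metric.ball (pt 0) (r / 2)) :=
      Metric.isOpen_ball.preimage hcont
    exact h2
  · refine ⟨p, ?_⟩
    show pd v (g0⁻¹ • p) (pt 0) < r / 2
    rw [← hgp, inv_smul_smul]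
    have : pd v (pt 0) (pt 0) = 0 := by
      rw [pt, pd_mk, dd_10]; simp
    rw [this]; positivity
  · intro g hg x hx y hy
    have key := equi_core v (g0⁻¹ * g * g0) r hr hr1 t0 ht0 ht0r (by
      intro z hz hlt
      have h1 := hball z hz
      have h2 := hball _ hlt
      rw [← mul_smul] at h2
      have e : g0 * (g0⁻¹ * g * g0) = g * g0 := by group
      rw [e, mul_smul] at h2
      exact hg _ h1 h2) (g0⁻¹ • x) (g0⁻¹ • y) hx hy
    have e : ∀ u : ℙ F (Fin 2 → F), g • u = g0 • (g0⁻¹ * g * g0) • g0⁻¹ • u := by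
      intro u
      simp only [← mul_smul]
      congr 1; group
    rw [e x, e y]
    calc _ ≤ LC v g0 * pd v ((g0⁻¹ * g * g0) • g0⁻¹ • x) ((g0⁻¹ * g * g0) • g0⁻¹ • y) :=
          pd_LC v g0 _ _
      _ ≤ LC v g0 * ((4 * (1 / r ^ 2 + 3 / (r * v t0))) * pd v (g0⁻¹ • x) (g0⁻¹ • y)) :=
          mul_le_mul_of_nonneg_left key hL1.le
      _ ≤ LC v g0 * ((4 * (1 / r ^ 2 + 3 / (r * v t0))) * (LC v g0⁻¹ * pd v x y)) := by
          apply mul_le_mul_of_nonneg_left _ hL1.le
          apply mul_le_mul_of_nonneg_left (pd_LC v g0⁻¹ x y) (by positivity)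
      _ = _ := by ring

theorem pp_pgl (hv : ∃ x : F, x ≠ 0 ∧ v x < 1) :
    @PP (PGL(2, F)) (ℙ F (Fin 2 → F)) _ (metricOf v) actPGL := by
  letI : MetricSpace (ℙ F (Fin 2 → F)) := metricOf v
  letI : MulAction (PGL(2, F)) (ℙ F (Fin 2 → F)) := actPGL
  refine ⟨⟨pt 0⟩, ?_, ⟨2, ?_⟩, ?_, ?_, ?_, ?_⟩
  · intro g
    induction g using ProjGenLinGroup.induction_on with
    | mk m => exact ⟨LC v m, LC_pos v m, fun x y => pd_LC v m x y⟩
  · intro x y
    exact dd_le_two v x.rep_nonzero y.rep_nonzero
  · intro V hV hVn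
    obtain ⟨p, hp⟩ := hVn
    obtain ⟨g, r, hr, hr1, hgp, hball⟩ := chart v V hV p hp
    obtain ⟨t, ht0, ht⟩ := exists_small v hv r hr
    refine ⟨p, hp, g • pt t, ?_, ?_⟩
    · apply hball
      rw [pt, pt, pd_mk, dd_1t v (ht.le.trans hr1)]; exact ht
    · rw [← hgp]
      intro h
      have h1 := MulAction.injective g h
      exact mk_ne_of_ne (F := F) (s := 0) (t := t) (Ne.symm ht0) h1
  · intro g hg V hV hVn
    induction g using ProjGenLinGroup.induction_on with
    | mk m =>
      by_contra hcon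
      push Not at hcon
      obtain ⟨p, hp⟩ := hVn
      obtain ⟨g, r, hr, hr1, hgp, hball⟩ := chart v V hV p hp
      obtain ⟨t, ht0, ht, ht2, htt⟩ := three_small v hv r hr hr1
      have hfix : ∀ s : F, v s < r → (g⁻¹ * m * g) • (pt s : ℙ F (Fin 2 → F)) = pt s := by
        intro s hs
        have h1 : g • pt s ∈ V := by
          apply hball
          rw [pt, pt, pd_mk, dd_1t v (hs.le.trans hr1)]; exact hs
        have h2 : m • g • pt s = g • pt s := hcon _ h1
        rw [mul_smul, mul_smul, h2, inv_smul_smul]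
      have h3 := scalar_of_fix (g⁻¹ * m * g) t ht0 htt (hfix 0 (by rw [map_zero]; exact hr))
        (hfix t ht) (hfix _ ht2)
      apply hg
      rw [map_mul, map_mul, map_inv] at h3
      have h4 : ProjGenLinGroup.mk m * ProjGenLinGroup.mk g = ProjGenLinGroup.mk g := by
        have := congrArg (fun z => ProjGenLinGroup.mk g * z) h3
        simpa [mul_assoc] using this
      simpa using h4
  · intro U hU hUn hd ε hε
    obtain ⟨γ, h1, h2, h3⟩ := contr_pgl v hv U hU hUn hd ε hε
    exact ⟨fun b => ProjGenLinGroup.mk (γ b), h1, h2, h3⟩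
  · intro V hV hVn
    obtain ⟨V', h1, h2, h3, C, hC, h4⟩ := equi_pgl v hv V hV hVn
    refine ⟨V', h1, h2, h3, C, hC, ?_⟩
    intro g
    induction g using ProjGenLinGroup.induction_on with
    | mk m => exact h4 m

end H361P
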