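import Pool.Agent.H361R3.PGL.ProjPP

universe u

namespace H361P

open Set Matrix
open scoped LinearAlgebra.Projectivization MatrixGroups

variable {F : Type u} [Field F] (v : AbsoluteValue F ℝ)

/-- `diag(1,λ)` or `diag(λ,1)`. -/
noncomputable def dm (l : Fˣ) (b : Bool) : GL (Fin 2) F :=
  GeneralLinearGroup.mkOfDetNeZero (if b then !![1, 0; 0, (l : F)] else !![(l : F), 0; 0, 1]) (by
    cases b <;> simp [Matrix.det_fin_two])

/-- Basis vectors. -/
def eb (b : Bool) : Fin 2 → F := if b then ![1, 0] else ![0, 1]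

/-- Coordinates. -/
def cb (b : Bool) (x : Fin 2 → F) : F := if b then x 0 else x 1

lemma eb_ne (b : Bool) : (eb b : Fin 2 → F) ≠ 0 := by
  intro h
  cases b
  · have := congrFun h 1; simp [eb] at this
  · have := congrFun h 0; simp [eb] at this

lemma nn_eb (b : Bool) : nn v (eb b) = 1 := by
  cases b <;> simp [nn, eb]

lemma cb_le (b : Bool) (x : Fin 2 → F) : v (cb b x) ≤ nn v x := by
  cases b
  · exact le_nn1 v x
  · exact le_nn0 v x

lemma dd_eb (b : Bool) (x : Fin 2 → F) : dd v x (eb (!b)) = v (cb b x) / nn v x := by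
  rw [dd, nn_eb, mul_one]
  cases b <;> simp [wd, eb, cb]

lemma cb_dm (l : Fˣ) (b : Bool) (x : Fin 2 → F) : cb b (dm l b • x) = cb b x := by
  cases b <;> simp [dm, cb, GeneralLinearGroup.mkOfDetNeZero]

lemma cb_dm' (l : Fˣ) (b : Bool) (x : Fin 2 → F) : cb (!b) (dm l b • x) = l * cb (!b) x := by
  cases b <;> simp [dm, cb, GeneralLinearGroup.mkOfDetNeZero]

lemma det_dm (l : Fˣ) (b : Bool) : (dm l b).val.det = (l : F) := by
  cases b <;> simp [dm, Matrix.det_fin_two, GeneralLinearGroup.mkOfDetNeZero]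

lemma dm_contr (l : Fˣ) (b : Bool) (r : ℝ) (hr : 0 < r) {z w : Fin 2 → F} (hz : z ≠ 0)
    (hw : w ≠ 0) (hz' : r * nn v z ≤ v (cb b z)) (hw' : r * nn v w ≤ v (cb b w)) :
    dd v (dm l b • z) (dm l b • w) ≤ v l / r ^ 2 * dd v z w := by
  have pz := nn_pos v hz
  have pw := nn_pos v hw
  have h1 : r * nn v z ≤ nn v (dm l b • z) := by
    calc _ ≤ v (cb b z) := hz'
      _ = v (cb b (dm l b • z)) := by rw [cb_dm]
      _ ≤ _ := cb_le v b _
  have h2 : r * nn v w ≤ nn v (dm l b • w) := by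
    calc _ ≤ v (cb b w) := hw'
      _ = v (cb b (dm l b • w)) := by rw [cb_dm]
      _ ≤ _ := cb_le v b _
  have p1 : 0 < r * nn v z := by positivity
  have p2 : 0 < r * nn v w := by positivity
  rw [dd, wd_smul, det_dm, map_mul, dd]
  have e : v l / r ^ 2 * (v (wd z w) / (nn v z * nn v w)) =
      (v l * v (wd z w)) / ((r * nn v z) * (r * nn v w)) := by
    field_simp
  rw [e]
  apply div_le_div_of_nonneg_left (mul_nonneg (v.nonneg _) (v.nonneg _)) (by positivity)
  exact mul_le_mul h1 h2 p2.le (p1.le.trans h1)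

lemma dm_near (l : Fˣ) (b : Bool) (r : ℝ) (hr : 0 < r) {z : Fin 2 → F} (hz : z ≠ 0)
    (hz' : r * nn v z ≤ v (cb b z)) : dd v (dm l b • z) (eb b) ≤ v l / r := by
  have pz := nn_pos v hz
  have h1 : r * nn v z ≤ nn v (dm l b • z) := by
    calc _ ≤ v (cb b z) := hz'
      _ = v (cb b (dm l b • z)) := by rw [cb_dm]
      _ ≤ _ := cb_le v b _
  have h3 := dd_eb v (!b) (dm l b • z)
  rw [Bool.not_not] at h3
  rw [h3, cb_dm', map_mul]
  have h4 : v (cb (!b) z) ≤ nn v z := cb_le v _ _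
  have p1 : 0 < r * nn v z := by positivity
  calc v l * v (cb (!b) z) / nn v (dm l b • z) ≤ v l * nn v z / (r * nn v z) := by
        apply div_le_div₀ (mul_nonneg (v.nonneg _) pz.le)
          (mul_le_mul_of_nonneg_left h4 (v.nonneg _)) p1 h1
    _ = v l / r := by field_simp

lemma dm_mul (l : Fˣ) : dm l false * dm l true = GeneralLinearGroup.scalar (Fin 2) l := by
  ext i j
  fin_cases i <;> fin_cases j <;> simp [dm, GeneralLinearGroup.mkOfDetNeZero]

/-- The basis points of the projective line. -/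
noncomputable def pb (b : Bool) : ℙ F (Fin 2 → F) := Projectivization.mk F (eb b) (eb_ne b)

lemma pd_nonneg (p q : ℙ F (Fin 2 → F)) : 0 ≤ pd v p q := dd_nonneg v _ _

theorem contr_pgl (hv : ∃ x : F, x ≠ 0 ∧ v x < 1) (U : Bool → Set (ℙ F (Fin 2 → F)))
    (hU : ∀ b, @IsOpen _ (metricOf v).toUniformSpace.toTopologicalSpace (U b))
    (hUn : ∀ b, (U b).Nonempty) (hd : Disjoint (U true) (U false)) (ε : ℝ) (hε : 0 < ε) :
    ∃ γ : Bool → GL (Fin 2) F, ProjGenLinGroup.mk (γ false) = (ProjGenLinGroup.mk (γ true))⁻¹ ∧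
      (∀ b (x : ℙ F (Fin 2 → F)), x ∉ U (!b) → γ b • x ∈ U b) ∧
      (∀ b (x y : ℙ F (Fin 2 → F)), x ∉ U (!b) → y ∉ U (!b) →
        pd v (γ b • x) (γ b • y) ≤ ε * pd v x y) := by
  classical
  obtain ⟨p, hp⟩ := hUn true
  obtain ⟨q, hq⟩ := hUn false
  have hpq : p ≠ q := by
    rintro rfl; exact Set.disjoint_left.1 hd hp hq
  have hwd : wd p.rep q.rep ≠ 0 := by
    intro h
    apply hpq
    rw [← p.mk_rep, ← q.mk_rep]
    exact mk_eq_of_wd p.rep_nonzero q.rep_nonzero h
  obtain ⟨g, hg1, hg2⟩ := exists_gl_two p.rep q.rep hwd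
  have hgb : ∀ b, g • pb b ∈ U b := by
    intro b
    cases b
    · have : g • (pb false : ℙ F (Fin 2 → F)) = q := by
        rw [pb, Projectivization.smul_mk]
        conv_rhs => rw [← q.mk_rep]
        congr 1
      rw [this]; exact hq
    · have : g • (pb true : ℙ F (Fin 2 → F)) = p := by
        rw [pb, Projectivization.smul_mk]
        conv_rhs => rw [← p.mk_rep]
        congr 1
      rw [this]; exact hp
  -- radii
  have hrad : ∀ b, ∃ r : ℝ, 0 < r ∧ ∀ z : ℙ F (Fin 2 → F), pd v z (pb b) < r → g • z ∈ U b := by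
    intro b
    let M : MetricSpace (ℙ F (Fin 2 → F)) := metricOf v
    obtain ⟨r, hr, hball⟩ := Metric.isOpen_iff.1 (hU b) _ (hgb b)
    refine ⟨r / LC v g, div_pos hr (LC_pos v g), ?_⟩
    intro z hz
    apply hball
    rw [Metric.mem_ball]
    show pd v _ _ < r
    calc _ ≤ LC v g * pd v z (pb b) := pd_LC v g z _
      _ < LC v g * (r / LC v g) := (mul_lt_mul_iff_of_pos_left (LC_pos v g)).2 hz
      _ = r := by
        have := (LC_pos v g).ne'
        field_simp
  obtain ⟨r1, hr1, h1⟩ := hrad true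
  obtain ⟨r2, hr2, h2⟩ := hrad false
  set r := min r1 r2 with hrdef
  have hr : 0 < r := lt_min hr1 hr2
  have hr' : ∀ b, ∀ z : ℙ F (Fin 2 → F), pd v z (pb b) < r → g • z ∈ U b := by
    intro b z hz
    cases b
    · exact h2 z (lt_of_lt_of_le hz (min_le_right _ _))
    · exact h1 z (lt_of_lt_of_le hz (min_le_left _ _))
  have hL1 := LC_pos v g
  have hL2 := LC_pos v g⁻¹
  obtain ⟨t, ht0, ht⟩ := exists_small v hv (min (r ^ 2) (ε * r ^ 2 / (LC v g * LC v g⁻¹)))
    (lt_min (by positivity) (by positivity))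
  set l : Fˣ := Units.mk0 t ht0 with hl
  have hl1 : v l < r ^ 2 := lt_of_lt_of_le ht (min_le_left _ _)
  have hl2 : v l < ε * r ^ 2 / (LC v g * LC v g⁻¹) := lt_of_lt_of_le ht (min_le_right _ _)
  refine ⟨fun b => g * dm l b * g⁻¹, ?_, ?_, ?_⟩
  · have : ProjGenLinGroup.mk (g * dm l false * g⁻¹) * ProjGenLinGroup.mk (g * dm l true * g⁻¹) = 1 := by
      rw [← map_mul]
      have e : g * dm l false * g⁻¹ * (g * dm l true * g⁻¹) = g * (dm l false * dm l true) * g⁻¹ := by
        group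
      rw [e, dm_mul, map_mul, map_mul, ProjGenLinGroup.mk_scalar, mul_one, ← map_mul,
        mul_inv_cancel, map_one]
    exact eq_inv_of_mul_eq_one_left this
  · intro b x hx
    show (g * dm l b * g⁻¹) • x ∈ U b
    rw [mul_smul, mul_smul]
    have hz : r ≤ pd v (g⁻¹ • x) (pb (!b)) := by
      by_contra hlt
      have := hr' (!b) _ (not_le.1 hlt)
      rw [smul_inv_smul] at this
      exact hx this
    apply hr'
    generalize g⁻¹ • x = z at hz
    induction z using Projectivization.ind with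
    | h z hz0 =>
      rw [pb, pd_mk, dd_eb, le_div_iff₀ (nn_pos v hz0)] at hz
      rw [Projectivization.smul_mk, pb, pd_mk]
      refine lt_of_le_of_lt (dm_near v l b r hr hz0 hz) ?_
      rw [div_lt_iff₀ hr, ← pow_two]
      exact hl1
  · intro b x y hx hy
    show pd v ((g * dm l b * g⁻¹) • x) ((g * dm l b * g⁻¹) • y) ≤ _
    rw [mul_smul, mul_smul, mul_smul, mul_smul]
    have hz : ∀ x, x ∉ U (!b) → r ≤ pd v (g⁻¹ • x) (pb (!b)) := by
      intro x hx
      by_contra hlt
      have := hr' (!b) _ (not_le.1 hlt)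
      rw [smul_inv_smul] at this
      exact hx this
    have hzx := hz x hx
    have hzy := hz y hy
    have hlast := pd_LC v g⁻¹ x y
    have hmid : pd v (dm l b • g⁻¹ • x) (dm l b • g⁻¹ • y) ≤
        v l / r ^ 2 * pd v (g⁻¹ • x) (g⁻¹ • y) := by
      generalize g⁻¹ • x = z at hzx
      generalize g⁻¹ • y = w at hzy
      induction z using Projectivization.ind with
      | h z hz0 =>
        induction w using Projectivization.ind with
        | h w hw0 =>
          rw [pb, pd_mk, dd_eb, le_div_iff₀ (nn_pos v hz0)] at hzx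
          rw [pb, pd_mk, dd_eb, le_div_iff₀ (nn_pos v hw0)] at hzy
          rw [Projectivization.smul_mk, Projectivization.smul_mk, pd_mk, pd_mk]
          exact dm_contr v l b r hr hz0 hw0 hzx hzy
    have hvl : 0 ≤ v (l : F) := v.nonneg _
    have hpxy := pd_nonneg v x y
    calc pd v (g • dm l b • g⁻¹ • x) (g • dm l b • g⁻¹ • y)
        ≤ LC v g * pd v (dm l b • g⁻¹ • x) (dm l b • g⁻¹ • y) := pd_LC v g _ _
      _ ≤ LC v g * (v l / r ^ 2 * pd v (g⁻¹ • x) (g⁻¹ • y)) :=
          mul_le_mul_of_nonneg_left hmid hL1.le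
      _ ≤ LC v g * (v l / r ^ 2 * (LC v g⁻¹ * pd v x y)) := by
          apply mul_le_mul_of_nonneg_left _ hL1.le
          apply mul_le_mul_of_nonneg_left hlast (by positivity)
      _ = (v l * (LC v g * LC v g⁻¹) / r ^ 2) * pd v x y := by ring
      _ ≤ ε * pd v x y := by
          apply mul_le_mul_of_nonneg_right _ hpxy
          rw [div_le_iff₀ (by positivity)]
          rw [lt_div_iff₀ (by positivity)] at hl2
          exact hl2.le

end H361P
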