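import Pool.Agent.H361R3.PGL.Proj

universe u

namespace H361P

open Set Matrix
open scoped LinearAlgebra.Projectivization MatrixGroups

variable {F : Type u} [Field F] (v : AbsoluteValue F ℝ)

lemma v10 (t : F) : (![1, t] : Fin 2 → F) ≠ 0 := by
  intro h; have := congrFun h 0; simp at this

/-- The point `[1:t]`. -/
noncomputable def pt (t : F) : ℙ F (Fin 2 → F) := Projectivization.mk F ![1, t] (v10 t)

lemma nn_1t {t : F} (ht : v t ≤ 1) : nn v ![1, t] = 1 := by
  simp only [nn, Matrix.cons_val_zero, Matrix.cons_val_one, map_one]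
  exact max_eq_left ht

lemma KK_nonneg (g : GL (Fin 2) F) : 0 ≤ KK v g := by
  unfold KK
  have := v.nonneg (g 0 0)
  have := v.nonneg (g 0 1)
  have := v.nonneg (g 1 0)
  have := v.nonneg (g 1 1)
  positivity

/-- A Lipschitz constant. -/
noncomputable def LC (g : GL (Fin 2) F) : ℝ := v g.val.det * KK v g⁻¹ ^ 2 + 1

lemma LC_pos (g : GL (Fin 2) F) : 0 < LC v g := by
  unfold LC
  have := v.nonneg g.val.det
  positivity

lemma dd_LC (g : GL (Fin 2) F) {x y : Fin 2 → F} (hx : x ≠ 0) (hy : y ≠ 0) :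
    dd v (g • x) (g • y) ≤ LC v g * dd v x y := by
  refine (dd_gsmul_le v g hx hy).trans ?_
  exact mul_le_mul_of_nonneg_right (by unfold LC; linarith) (dd_nonneg v x y)

/-- The distance as a function of vectors, for the metric `metricOf v`. -/
lemma pd_smul_mk (g : GL (Fin 2) F) (x y : Fin 2 → F) (hx : x ≠ 0) (hy : y ≠ 0) :
    pd v (g • Projectivization.mk F x hx) (g • Projectivization.mk F y hy) =
      dd v (g • x) (g • y) := by
  rw [Projectivization.smul_mk, Projectivization.smul_mk, pd_mk]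

lemma pd_LC (g : GL (Fin 2) F) (p q : ℙ F (Fin 2 → F)) :
    pd v (g • p) (g • q) ≤ LC v g * pd v p q := by
  induction p using Projectivization.ind with
  | h x hx =>
    induction q using Projectivization.ind with
    | h y hy =>
      rw [pd_smul_mk, pd_mk]
      exact dd_LC v g hx hy

/-- A matrix with prescribed first column direction. -/
lemma exists_gl_fst (x : Fin 2 → F) (hx : x ≠ 0) : ∃ g : GL (Fin 2) F, g • (![1, 0] : Fin 2 → F) = x := by
  by_cases h0 : x 0 = 0
  · have h1 : x 1 ≠ 0 := by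
      intro h1; apply hx; funext i; fin_cases i
      · exact h0
      · exact h1
    refine ⟨GeneralLinearGroup.mkOfDetNeZero !![x 0, 1; x 1, 0] (by
      rw [Matrix.det_fin_two]; simpa using h1), ?_⟩
    funext i
    fin_cases i <;> simp [GeneralLinearGroup.mkOfDetNeZero]
  · refine ⟨GeneralLinearGroup.mkOfDetNeZero !![x 0, 0; x 1, 1] (by
      rw [Matrix.det_fin_two]; simpa using h0), ?_⟩
    funext i
    fin_cases i <;> simp [GeneralLinearGroup.mkOfDetNeZero]

/-- A matrix with prescribed columns. -/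
lemma exists_gl_two (x y : Fin 2 → F) (h : wd x y ≠ 0) : ∃ g : GL (Fin 2) F,
    g • (![1, 0] : Fin 2 → F) = x ∧ g • (![0, 1] : Fin 2 → F) = y := by
  refine ⟨GeneralLinearGroup.mkOfDetNeZero !![x 0, y 0; x 1, y 1] (by
      rw [Matrix.det_fin_two]; simpa [wd, mul_comm] using h), ?_, ?_⟩
  · funext i
    fin_cases i <;> simp [GeneralLinearGroup.mkOfDetNeZero]
  · funext i
    fin_cases i <;> simp [GeneralLinearGroup.mkOfDetNeZero]

lemma dd_1t {t : F} (ht : v t ≤ 1) : dd v ![1, t] ![1, 0] = v t := by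
  rw [dd, nn_1t v ht, nn_1t v (by simp)]
  simp [wd]

/-- Local charts. -/
lemma chart (V : Set (ℙ F (Fin 2 → F))) (hV : @IsOpen _ (metricOf v).toUniformSpace.toTopologicalSpace V)
    (p : ℙ F (Fin 2 → F)) (hp : p ∈ V) :
    ∃ g : GL (Fin 2) F, ∃ r : ℝ, 0 < r ∧ r ≤ 1 ∧ g • pt 0 = p ∧
      ∀ q : ℙ F (Fin 2 → F), pd v q (pt 0) < r → g • q ∈ V := by
  letI := metricOf v
  induction p using Projectivization.ind with
  | h x hx =>
    obtain ⟨g, hg⟩ := exists_gl_fst x hx
    obtain ⟨r, hr, hball⟩ := Metric.isOpen_iff.1 hV _ hp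
    have hgp : g • pt 0 = Projectivization.mk F x hx := by
      rw [pt, Projectivization.smul_mk]; congr 1
    refine ⟨g, min (r / LC v g) 1, lt_min (div_pos hr (LC_pos v g)) one_pos, min_le_right _ _,
      hgp, ?_⟩
    intro q hq
    apply hball
    rw [Metric.mem_ball, ← hgp]
    have h1 : pd v q (pt 0) < r / LC v g :=
      lt_of_lt_of_le hq (min_le_left _ _)
    have h2 := pd_LC v g q (pt 0)
    show pd v _ _ < r
    calc _ ≤ _ := h2
      _ < LC v g * (r / LC v g) := (mul_lt_mul_iff_of_pos_left (LC_pos v g)).2 h1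
      _ = r := by
        have := (LC_pos v g).ne'
        field_simp

lemma exists_small (hv : ∃ x : F, x ≠ 0 ∧ v x < 1) (r : ℝ) (hr : 0 < r) :
    ∃ t : F, t ≠ 0 ∧ v t < r := by
  obtain ⟨x, hx0, hx1⟩ := hv
  obtain ⟨n, hn⟩ := exists_pow_lt_of_lt_one hr hx1
  exact ⟨x ^ n, pow_ne_zero _ hx0, by rw [map_pow]; exact hn⟩

/-- Three distinct small parameters. -/
lemma three_small (hv : ∃ x : F, x ≠ 0 ∧ v x < 1) (r : ℝ) (hr : 0 < r) (hr1 : r ≤ 1) :
    ∃ t : F, t ≠ 0 ∧ v t < r ∧ v (t ^ 2) < r ∧ t ^ 2 ≠ t := by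
  obtain ⟨t, ht0, ht⟩ := exists_small v hv r hr
  have h0 := v.nonneg t
  have h1 : v (t ^ 2) < r := by
    rw [map_pow]
    have : v t ^ 2 ≤ v t := by
      rw [pow_two]; exact mul_le_of_le_one_left h0 (by linarith)
    linarith
  refine ⟨t, ht0, ht, h1, ?_⟩
  intro h2
  have h3 : t = 1 := by
    have : t * (t - 1) = 0 := by linear_combination h2
    rcases mul_eq_zero.1 this with h | h
    · exact absurd h ht0
    · exact sub_eq_zero.1 h
  rw [h3, map_one] at ht
  linarith

lemma mk_ne_of_ne {s t : F} (h : s ≠ t) :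
    pt s ≠ pt t := by
  intro h1
  have := wd_of_mk_eq _ _ h1
  simp [wd] at this
  apply h
  linear_combination -this

/-- An element of `GL₂` fixing three small points `[1:t]` is scalar. -/
lemma scalar_of_fix (g : GL (Fin 2) F) (t : F) (ht0 : t ≠ 0) (ht2 : t ^ 2 ≠ t)
    (h0 : g • (pt 0 : ℙ F (Fin 2 → F)) = pt 0)
    (h1 : g • (pt t : ℙ F (Fin 2 → F)) = pt t)
    (h2 : g • pt (t ^ 2) =
      pt (t ^ 2)) :
    ProjGenLinGroup.mk g = 1 := by
  simp only [pt, Projectivization.smul_mk] at h0 h1 h2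
  have e0 := wd_of_mk_eq _ _ h0
  have e1 := wd_of_mk_eq _ _ h1
  have e2 := wd_of_mk_eq _ _ h2
  simp [wd] at e0 e1 e2
  have f1 : g 0 0 - g 1 1 + g 0 1 * t = 0 := by
    have : t * (g 0 0 - g 1 1 + g 0 1 * t) = 0 := by
      rw [e0] at e1; linear_combination e1
    exact (mul_eq_zero.1 this).resolve_left ht0
  have f2 : g 0 0 - g 1 1 + g 0 1 * t ^ 2 = 0 := by
    have : t ^ 2 * (g 0 0 - g 1 1 + g 0 1 * t ^ 2) = 0 := by
      rw [e0] at e2; linear_combination e2
    exact (mul_eq_zero.1 this).resolve_left (pow_ne_zero _ ht0)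
  have f3 : g 0 1 = 0 := by
    have : g 0 1 * (t ^ 2 - t) = 0 := by linear_combination f2 - f1
    exact (mul_eq_zero.1 this).resolve_right (sub_ne_zero.2 ht2)
  have f4 : g 0 0 = g 1 1 := by rw [f3] at f1; linear_combination f1
  have hdet : g.val.det ≠ 0 := g.det_ne_zero
  have f5 : g 0 0 ≠ 0 := by
    intro h
    apply hdet
    rw [Matrix.det_fin_two, f3, h]; ring
  rw [← ProjGenLinGroup.mk_scalar (Units.mk0 (g 0 0) f5)]
  congr 1
  ext i j
  fin_cases i <;> fin_cases j
  · simp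
  · simpa using f3
  · simpa using e0
  · simpa using f4.symm

end H361P
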