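import Pool.Agent.H361R3.PGL.Core

namespace H361P

open Set

variable {G X : Type*} [Group G] [MetricSpace X] [MulAction G X]

lemma step (hp : PP G X) {H : Subgroup G} (hW : Wand X H) (P : Finset G) (hP : ∀ p ∈ P, p ∉ H)
    {k : ℕ} (c : Fin k → Bool → G) (hc : ∀ b i i', i ≠ i' → (c i b)⁻¹ * c i' b ∉ H) :
    ∃ H' : Subgroup G, H ≤ H' ∧ Wand X H' ∧ (∀ p ∈ P, p ∉ H') ∧
      ∃ g : G, ∀ i, (c i true)⁻¹ * g * c i false ∈ H' := by
  classical
  set CI : Finset G := (Finset.univ : Finset (Fin k × Bool)).image (fun p => (c p.1 p.2)⁻¹) with hCI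
  set CC : Finset G := (Finset.univ : Finset (Fin k × Bool)).image (fun p => c p.1 p.2) with hCC
  set S : Finset G := insert 1 (P ∪ CI) with hS
  have hS1 : (1 : G) ∈ S := Finset.mem_insert_self _ _
  have hSP : ∀ p ∈ P, p ∈ S := fun p hp' => Finset.mem_insert_of_mem (Finset.mem_union_left _ hp')
  have hSc : ∀ i b, (c i b)⁻¹ ∈ S := fun i b => Finset.mem_insert_of_mem
    (Finset.mem_union_right _ (Finset.mem_image.2 ⟨(i, b), Finset.mem_univ _, rfl⟩))
  have hcc : ∀ i b, c i b ∈ CC := fun i b => Finset.mem_image.2 ⟨(i, b), Finset.mem_univ _, rfl⟩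
  have hne := hp.ne
  obtain ⟨V0, -, hV0, hV0n, hwand⟩ := hW S Set.univ isOpen_univ Set.univ_nonempty
  obtain ⟨V1, hV10, hV1, hV1n, C, hC, hlip⟩ := hp.equi V0 hV0 hV0n
  obtain ⟨L, hL, hLS⟩ := hp.unif (X := X) S
  obtain ⟨L', hL', hLC⟩ := hp.unif (X := X) CC
  set C2 := L * max C 1 with hC2
  have hC2pos : 0 < C2 := by positivity
  have hlip2 : ∀ h ∈ H, ∀ s ∈ S, ∀ x ∈ V1, ∀ y ∈ V1,
      dist ((h * s) • x) ((h * s) • y) ≤ C2 * dist x y := by
    intro h hh s hs x hx y hy
    by_cases h1 : h = 1
    · subst h1
      rw [one_mul]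
      calc _ ≤ L * dist x y := hLS s hs x y
        _ ≤ C2 * dist x y := by
          apply mul_le_mul_of_nonneg_right _ dist_nonneg
          rw [hC2]
          exact le_mul_of_one_le_right (by linarith) (le_max_right _ _)
    · have h2 : ∀ z ∈ V0, (s⁻¹ * h * s) • z ∉ V0 := by
        intro z hz hmem
        have := hwand s hs s hs h hh z hz _ hmem (by
          rw [← mul_smul]; congr 1; group)
        exact h1 (by simpa using this)
      have h3 := hlip (s⁻¹ * h * s) h2 x hx y hy
      have h4 : ∀ z : X, (h * s) • z = s • (s⁻¹ * h * s) • z := by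
        intro z; rw [← mul_smul]; congr 1; group
      rw [h4, h4]
      calc _ ≤ L * dist ((s⁻¹ * h * s) • x) ((s⁻¹ * h * s) • y) := hLS s hs _ _
        _ ≤ L * (C * dist x y) := mul_le_mul_of_nonneg_left h3 (by linarith)
        _ ≤ L * (max C 1 * dist x y) := by
          apply mul_le_mul_of_nonneg_left _ (by linarith)
          exact mul_le_mul_of_nonneg_right (le_max_left _ _) dist_nonneg
        _ = C2 * dist x y := by rw [hC2]; ring
  obtain ⟨p, q, o, ρ, hρ, hpV, hqV, hoV, dpq, dpo, dqo⟩ := three_balls hp V1 hV1 hV1n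
  set U : Bool → Set X := fun b => interior (Metric.closedBall (if b then p else q) ρ) with hU
  have hUV : ∀ b, U b ⊆ V1 := by
    intro b
    cases b
    · exact interior_subset.trans hqV
    · exact interior_subset.trans hpV
  have hUd : ∀ b b', b ≠ b' → Disjoint (U b) (U b') := by
    have h0 : Disjoint (U true) (U false) := dpq.mono interior_subset interior_subset
    intro b b' hbb
    cases b <;> cases b'
    · exact absurd rfl hbb
    · exact h0.symm
    · exact h0
    · exact absurd rfl hbb
  have hUO : ∀ b, Disjoint (U b) (Metric.ball o ρ) := by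
    intro b
    cases b
    · exact dqo.mono interior_subset Metric.ball_subset_closedBall
    · exact dpo.mono interior_subset Metric.ball_subset_closedBall
  have hOV : Metric.ball o ρ ⊆ V0 := (Metric.ball_subset_closedBall.trans hoV).trans hV10
  have hUne : ∀ b, (U b).Nonempty := by
    intro b
    exact ⟨_, interior_mono Metric.ball_subset_closedBall
      (by rw [Metric.isOpen_ball.interior_eq]; exact Metric.mem_ball_self hρ)⟩
  obtain ⟨γ, hγinv, hγpp, hγc⟩ := hp.contr U (fun b => isOpen_interior) hUne
    (hUd true false (by simp)) (1 / (2 * C2 * L')) (by positivity)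
  have hγinv' : ∀ b, γ (!b) = (γ b)⁻¹ := by
    intro b
    cases b
    · simp [hγinv]
    · simp [hγinv]
  set t : Fin k → Bool → G := fun i b => (c i b)⁻¹ * γ b * c i (!b) with ht
  set T : Fin k → Bool → Set X := fun i b => {x | c i b • x ∈ U b} with hT
  have core : Core H t T (Metric.ball o ρ) := by
    refine ⟨?_, ?_, ?_, ?_, ?_, Metric.isOpen_ball, ⟨o, Metric.mem_ball_self hρ⟩, ?_, ?_⟩
    · intro i b
      simp only [ht, hγinv', Bool.not_not, mul_inv_rev, inv_inv, mul_assoc]
    · intro i b x hx
      have h1 := hγpp b (c i (!b) • x) hx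
      show c i b • t i b • x ∈ U b
      have : c i b • t i b • x = γ b • c i (!b) • x := by
        rw [ht]; simp only [← mul_smul]; congr 1; group
      rw [this]; exact h1
    · intro h hh i b i' b' x hx hx'
      have hx1 : c i b • x ∈ U b := hx
      have hx2 : c i' b' • h • x ∈ U b' := hx'
      have h1 := hwand _ (hSc i b) _ (hSc i' b') h hh (c i b • x) (hV10 (hUV _ hx1))
        (c i' b' • h • x) (hV10 (hUV _ hx2)) (by
          rw [← mul_smul, inv_smul_smul]; congr 1; group)
      have h2 : c i' b' • h • x = c i b • x := by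
        rw [← mul_smul]; congr 1
        have : c i' b' * (h * (c i b)⁻¹) = 1 := by rw [h1]; group
        have h3 : c i' b' * h = c i b := by
          rw [← mul_assoc] at this
          exact mul_inv_eq_one.1 this
        exact h3
      have hb : b = b' := by
        by_contra hbb
        rw [h2] at hx2
        exact Set.disjoint_left.1 (hUd b b' hbb) hx1 hx2
      subst hb
      have h3 : c i' b * h = c i b := by
        have : c i' b * (h * (c i b)⁻¹) = 1 := by rw [h1]; group
        rw [← mul_assoc] at this
        exact mul_inv_eq_one.1 this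
      have hi : i = i' := by
        by_contra hii
        apply hc b i' i (Ne.symm hii)
        rw [← h3, inv_mul_cancel_left]
        exact hh
      subst hi
      exact ⟨by simpa using h3, rfl, rfl⟩
    · intro i b
      exact isOpen_interior.preimage (hp.cont _)
    · intro i b N hN x hxN hx
      have h1 : c i b • x ∈ closure (Metric.closedBall (if b then p else q) ρ)ᶜ := by
        rw [closure_compl]; exact hx
      obtain ⟨z, hz1, hz2⟩ := mem_closure_iff.1 h1 ((fun z => (c i b)⁻¹ • z) ⁻¹' N)
        (hN.preimage (hp.cont _)) (by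
          show (c i b)⁻¹ • c i b • x ∈ N
          rw [inv_smul_smul]; exact hxN)
      refine ⟨N ∩ (fun y => c i b • y) ⁻¹' (Metric.closedBall (if b then p else q) ρ)ᶜ,
        Set.inter_subset_left,
        hN.inter (Metric.isClosed_closedBall.isOpen_compl.preimage (hp.cont _)),
        ⟨(c i b)⁻¹ • z, hz1, ?_⟩, ?_⟩
      · show c i b • (c i b)⁻¹ • z ∈ (Metric.closedBall (if b then p else q) ρ)ᶜ
        rw [smul_inv_smul]; exact hz2
      · intro y hy hmem
        exact hy.2 (interior_subset hmem)
    · intro h hh i b x hx hmem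
      have hx1 : c i b • x ∈ U b := hx
      have h1 := hwand _ (hSc i b) _ hS1 h hh (c i b • x) (hV10 (hUV _ hx1))
        (h • x) (hOV hmem) (by
          rw [one_smul, ← mul_smul]; congr 1; group)
      have h3 : h = c i b := mul_inv_eq_one.1 h1
      rw [h3] at hmem
      exact Set.disjoint_left.1 (hUO b) hx1 hmem
    · intro h hh i b x y hx hy
      have hx1 := hγpp b _ hx
      have hy1 := hγpp b _ hy
      have e : ∀ z : X, (h * t i b) • z = (h * (c i b)⁻¹) • γ b • c i (!b) • z := by
        intro z
        rw [ht]; simp only [← mul_smul]; congr 1; group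
      rw [e, e]
      calc _ ≤ C2 * dist (γ b • c i (!b) • x) (γ b • c i (!b) • y) :=
            hlip2 h hh _ (hSc i b) _ (hUV _ hx1) _ (hUV _ hy1)
        _ ≤ C2 * (1 / (2 * C2 * L') * dist (c i (!b) • x) (c i (!b) • y)) :=
            mul_le_mul_of_nonneg_left (hγc b _ _ hx hy) hC2pos.le
        _ ≤ C2 * (1 / (2 * C2 * L') * (L' * dist x y)) := by
            apply mul_le_mul_of_nonneg_left _ hC2pos.le
            apply mul_le_mul_of_nonneg_left _ (by positivity)
            exact hLC _ (hcc i (!b)) x y
        _ = (1 / 2) * dist x y := by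
            have : L' ≠ 0 := by positivity
            field_simp
  refine ⟨Gam H t, H_le_Gam H t, core.wand hp hW, ?_, γ true, ?_⟩
  · intro p' hp' hmem
    obtain ⟨h, hh, i, b, x, hx, hxo⟩ := core.excl hmem (hP p' hp') (Metric.mem_ball_self hρ)
    have hx1 : c i b • x ∈ U b := hx
    have h1 := hwand _ (hSc i b) _ (hSP p' hp') h hh (c i b • x) (hV10 (hUV _ hx1)) o
      (hOV (Metric.mem_ball_self hρ)) (by
        rw [hxo, ← mul_smul]; congr 1; group)
    rw [← h1, mul_smul] at hxo
    have h2 : (c i b)⁻¹ • o = x := by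
      have := congrArg (fun z => h⁻¹ • z) hxo
      simpa using this
    rw [← h2, smul_inv_smul] at hx1
    exact Set.disjoint_left.1 (hUO b) hx1 (Metric.mem_ball_self hρ)
  · intro i
    have := t_mem_Gam H t i true
    simpa [ht] using this

/-- For `g ≠ 1` some conjugate lies outside a wandering subgroup. -/
lemma conj_out (hp : PP G X) {H : Subgroup G} (hW : Wand X H) (g : G) (hg : g ≠ 1) :
    ∃ x : G, x⁻¹ * g * x ∉ H := by
  classical
  have hne := hp.ne
  obtain ⟨V, -, hV, hVn, hwand⟩ := hW {1} Set.univ isOpen_univ Set.univ_nonempty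
  obtain ⟨y, -, hy⟩ := hp.free g hg Set.univ isOpen_univ Set.univ_nonempty
  -- shrink V and find a region avoiding y, g y
  obtain ⟨p, q, o, ρ, hρ, hpV, hqV, hoV, dpq, dpo, dqo⟩ := three_balls hp V hV hVn
  -- three disjoint balls; we use U+ = ball p, U- = open subset of ball q avoiding y and g y
  have hopen : IsOpen (Metric.ball q ρ \ {y, g • y}) :=
    Metric.isOpen_ball.sdiff (Set.toFinite _).isClosed
  have hnon : (Metric.ball q ρ \ {y, g • y}).Nonempty := by
    -- three distinct points in ball q
    obtain ⟨a, b, d, σ, hσ, ha, hb, hd, dab, dad, dbd⟩ := three_balls hp (Metric.ball q ρ)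
      Metric.isOpen_ball ⟨q, Metric.mem_ball_self hρ⟩
    have ma := Metric.mem_closedBall_self (x := a) hσ.le
    have mb := Metric.mem_closedBall_self (x := b) hσ.le
    have md := Metric.mem_closedBall_self (x := d) hσ.le
    have nab : a ≠ b := by
      rintro rfl; exact Set.disjoint_left.1 dab ma ma
    have nad : a ≠ d := by
      rintro rfl; exact Set.disjoint_left.1 dad ma ma
    have nbd : b ≠ d := by
      rintro rfl; exact Set.disjoint_left.1 dbd mb mb
    by_contra hcon
    rw [Set.not_nonempty_iff_eq_empty, Set.diff_eq_empty] at hcon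
    have ka := hcon (ha ma)
    have kb := hcon (hb mb)
    have kd := hcon (hd md)
    simp only [Set.mem_insert_iff, Set.mem_singleton_iff] at ka kb kd
    rcases ka with ka | ka <;> rcases kb with kb | kb <;> rcases kd with kd | kd <;>
      first
      | exact nab (ka.trans kb.symm)
      | exact nad (ka.trans kd.symm)
      | exact nbd (kb.trans kd.symm)
  obtain ⟨γ, -, hγ, -⟩ := hp.contr
    (fun b => if b then Metric.ball p ρ else Metric.ball q ρ \ {y, g • y})
    (by intro b; cases b; exact hopen; exact Metric.isOpen_ball)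
    (by intro b; cases b; exact hnon; exact ⟨p, Metric.mem_ball_self hρ⟩)
    (by
      simp only [if_true]
      exact dpq.mono Metric.ball_subset_closedBall
        (Set.diff_subset.trans Metric.ball_subset_closedBall)) 1 one_pos
  have hγ' : ∀ x, x ∉ Metric.ball q ρ \ {y, g • y} → γ true • x ∈ V := by
    intro x hx
    have := hγ true x (by simpa using hx)
    simp only [if_true] at this
    exact hpV (Metric.ball_subset_closedBall this)
  have h1 := hγ' y (by simp)
  have h2 := hγ' (g • y) (by simp)
  refine ⟨(γ true)⁻¹, ?_⟩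
  intro hmem
  rw [inv_inv] at hmem
  have h3 := hwand 1 (by simp) 1 (by simp) _ hmem _ h1 _ h2 (by
    rw [mul_one, one_smul, ← mul_smul, ← mul_smul]
    congr 1; group)
  apply hg
  rw [mul_one] at h3
  have h4 : γ true * g = γ true := by
    have := congrArg (fun z => z * γ true) h3
    simpa [mul_assoc] using this
  simpa using h4

end H361P
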