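import Pool.Agent.H361R3.PGL.NoFour

universe u v

namespace H361P

open Matrix Equiv
open scoped MatrixGroups LinearAlgebra.Projectivization

variable {F : Type u} [Field F]

/-- The standard triple. -/
noncomputable def std3 : Fin 3 → ℙ F (Fin 2 → F) := ![pb true, pb false, pt 1]

lemma exists_to_triple (a : Fin 3 → ℙ F (Fin 2 → F)) (ha : Function.Injective a) :
    ∃ g : GL (Fin 2) F, ∀ i, g • std3 i = a i := by
  set x := (a 0).rep with hx
  set y := (a 1).rep with hy
  set z := (a 2).rep with hz
  have hne : ∀ i j, i ≠ j → wd (a i).rep (a j).rep ≠ 0 := by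
    intro i j hij h
    apply hij
    apply ha
    rw [← (a i).mk_rep, ← (a j).mk_rep]
    exact mk_eq_of_wd (a i).rep_nonzero (a j).rep_nonzero h
  have hxy : wd x y ≠ 0 := hne 0 1 (by decide)
  have hzy : wd z y ≠ 0 := hne 2 1 (by decide)
  have hxz : wd x z ≠ 0 := hne 0 2 (by decide)
  set α := wd z y / wd x y with hα
  set β := wd x z / wd x y with hβ
  have hα0 : α ≠ 0 := div_ne_zero hzy hxy
  have hβ0 : β ≠ 0 := div_ne_zero hxz hxy
  have hzeq : z = α • x + β • y := by
    have h1 := plucker x z y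
    have h2 : z = (wd x y)⁻¹ • (wd x y • z) := by rw [smul_smul, inv_mul_cancel₀ hxy, one_smul]
    rw [h2, h1, smul_add, smul_smul, smul_smul, hα, hβ]
    congr 2 <;> field_simp
  obtain ⟨g, hg1, hg2⟩ := exists_gl_two (α • x) (β • y) (by
    have : wd (α • x) (β • y) = α * β * wd x y := by simp [wd]; ring
    rw [this]
    exact mul_ne_zero (mul_ne_zero hα0 hβ0) hxy)
  have hg3 : g • (![1, 1] : Fin 2 → F) = z := by
    have : (![1, 1] : Fin 2 → F) = ![1, 0] + ![0, 1] := by
      ext i; fin_cases i <;> simp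
    rw [this, smul_add, hg1, hg2, ← hzeq]
  refine ⟨g, ?_⟩
  intro i
  rw [← (a i).mk_rep]
  fin_cases i
  · show g • pb true = _
    rw [pb, Projectivization.smul_mk, Projectivization.mk_eq_mk_iff']
    exact ⟨α, by
      show α • x = g • (![1, 0] : Fin 2 → F)
      rw [hg1]⟩
  · show g • pb false = _
    rw [pb, Projectivization.smul_mk, Projectivization.mk_eq_mk_iff']
    exact ⟨β, by
      show β • y = g • (![0, 1] : Fin 2 → F)
      rw [hg2]⟩
  · show g • pt 1 = _
    rw [pt, Projectivization.smul_mk, Projectivization.mk_eq_mk_iff']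
    exact ⟨1, by
      rw [one_smul]
      exact hg3.symm⟩

lemma std3_injective : Function.Injective (std3 (F := F)) := by
  have h01 : (pb true : ℙ F (Fin 2 → F)) ≠ pb false := by
    intro h; have := wd_of_mk_eq _ _ h; simp [wd, eb] at this
  have h02 : (pb true : ℙ F (Fin 2 → F)) ≠ pt 1 := by
    intro h; have := wd_of_mk_eq _ _ h; simp [wd, eb] at this
  have h12 : (pb false : ℙ F (Fin 2 → F)) ≠ pt 1 := by
    intro h; have := wd_of_mk_eq _ _ h; simp [wd, eb] at this
  intro i j hij
  fin_cases i <;> fin_cases j <;> simp [std3] at hij ⊢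
  · exact h01 hij
  · exact h02 hij
  · exact h01 hij.symm
  · exact h12 hij
  · exact h02 hij.symm
  · exact h12 hij.symm

/-- The natural action is faithful and `3`-transitive. -/
theorem three (F : Type u) [Field F] : HasFaithfulKTransitive (PGL(2, F)) 3 := by
  refine ⟨ℙ F (Fin 2 → F), actPGL, ?_, ?_⟩
  · let _ : MulAction (PGL(2, F)) (ℙ F (Fin 2 → F)) := actPGL
    refine ⟨?_⟩
    intro g1 g2 h
    suffices hs : ∀ g : PGL(2, F), (∀ p : ℙ F (Fin 2 → F), g • p = p) → g = 1 by
      have := hs (g2⁻¹ * g1) (fun p => by rw [mul_smul, h, inv_smul_smul])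
      rw [inv_mul_eq_one] at this
      exact this.symm
    intro g hg
    induction g using ProjGenLinGroup.induction_on with
    | mk m =>
      have e1 : m • (pb true : ℙ F (Fin 2 → F)) = pb true := hg (pb true)
      have e2 : m • (pb false : ℙ F (Fin 2 → F)) = pb false := hg (pb false)
      have e3 : m • (pt 1 : ℙ F (Fin 2 → F)) = pt 1 := hg (pt 1)
      simp only [pb, pt, Projectivization.smul_mk] at e1 e2 e3
      have f1 := wd_of_mk_eq _ _ e1
      have f2 := wd_of_mk_eq _ _ e2
      have f3 := wd_of_mk_eq _ _ e3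
      simp [wd, eb] at f1 f2 f3
      apply mk_eq_one_of_entries
      · exact f2
      · exact f1
      · rw [f1, f2] at f3; linear_combination f3
  · let _ : MulAction (PGL(2, F)) (ℙ F (Fin 2 → F)) := actPGL
    refine ⟨⟨std3, std3_injective⟩, ?_⟩
    intro a b ha hb
    obtain ⟨g, hg⟩ := exists_to_triple a ha
    obtain ⟨g', hg'⟩ := exists_to_triple b hb
    refine ⟨ProjGenLinGroup.mk (g' * g⁻¹), fun i => ?_⟩
    show (g' * g⁻¹) • a i = b i
    rw [← hg i, mul_smul, inv_smul_smul, hg' i]

end H361P
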